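import Mathlib

set_option autoImplicit false

/-!
# Gonality of preimages of lines under a map of minimal degree: a counterexample

Let `k` be an algebraically closed field of characteristic `2` and let `S ⊂ P² × P²` be the surface
`x₀y₀² + x₁y₁² + x₂y₂² = 0`, `x₀²y₀ + x₁²y₁ + x₂²y₂ = 0` (a smooth K3 surface), and let `ψ : S → P²`
be the first projection.  Then `ψ` has degree `2`, and no dominant rational map `S ⇢ P²` has smaller
degree.  For every line `L` outside a hypersurface of the dual plane the curve `C_L = ψ⁻¹(L)` is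
rational, so its gonality is `1 < 2`.
-/

open MvPolynomial

namespace Pool.Agent.Results.MP_83f7cc_ag.InsepDouble

section GonDefs

/-- The projective plane over `k` (its set of `k`-points). -/
abbrev P2 (k : Type) [Field k] : Type := Projectivization k (Fin 3 → k)

/-- `k[x₀,x₁,x₂,y₀,y₁,y₂]`, the bihomogeneous coordinate ring of `P² × P²`:
`X (Sum.inl i)` is `xᵢ` and `X (Sum.inr i)` is `yᵢ`. -/
abbrev R (k : Type) [Field k] : Type := MvPolynomial (Fin 3 ⊕ Fin 3) k

section
variable {k : Type} [Field k]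

/-- `F` is bihomogeneous of bidegree `(a, b)`. -/
def IsBihom (F : R k) (a b : ℕ) : Prop :=
  ∀ m ∈ F.support, (∑ i : Fin 3, m (Sum.inl i) = a) ∧ (∑ i : Fin 3, m (Sum.inr i) = b)

/-- The value `F(u, v)`. -/
noncomputable def value (F : R k) (u v : Fin 3 → k) : k := MvPolynomial.eval (Sum.elim u v) F

/-- The point `([u], [v])` of `P² × P²`. -/
def point (u v : Fin 3 → k) (hu : u ≠ 0) (hv : v ≠ 0) : P2 k × P2 k :=
  (Projectivization.mk k u hu, Projectivization.mk k v hv)

/-- The vanishing ideal of a subset `Z` of `P² × P²`: all polynomials `F` with `F(u, v) = 0`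
whenever `([u], [v]) ∈ Z`. -/
def vanishing (Z : Set (P2 k × P2 k)) : Ideal (R k) where
  carrier := {F | ∀ (u v : Fin 3 → k) (hu : u ≠ 0) (hv : v ≠ 0), point u v hu hv ∈ Z →
    value F u v = 0}
  add_mem' := by
    intro F G hF hG u v hu hv h
    have h1 := hF u v hu hv h
    have h2 := hG u v hu hv h
    simp only [value] at *
    rw [map_add, h1, h2, add_zero]
  zero_mem' := by
    intro u v hu hv _
    simp [value]
  smul_mem' := by
    intro c F hF u v hu hv h
    have h1 := hF u v hu hv h
    simp only [value, smul_eq_mul] at *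
    rw [map_mul, h1, mul_zero]

end

/-- A projective variety in `P² × P²` (over an algebraically closed field): a Zariski closed
subset whose vanishing ideal is prime. -/
structure Variety (k : Type) [Field k] where
  carrier : Set (P2 k × P2 k)
  closed : ∀ (u v : Fin 3 → k) (hu : u ≠ 0) (hv : v ≠ 0),
    (∀ (a b : ℕ) (F : R k), IsBihom F a b → F ∈ vanishing carrier → value F u v = 0) →
      point u v hu hv ∈ carrier
  prime : (vanishing carrier).IsPrime

variable {k : Type} [Field k]

namespace Variety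

instance (V : Variety k) : (vanishing V.carrier).IsPrime := V.prime

/-- The bihomogeneous coordinate ring of `V`. -/
def CoordRing (V : Variety k) : Type := R k ⧸ vanishing V.carrier

noncomputable instance (V : Variety k) : CommRing V.CoordRing :=
  Ideal.Quotient.commRing (vanishing V.carrier)

instance (V : Variety k) : IsDomain V.CoordRing :=
  Ideal.Quotient.isDomain (vanishing V.carrier)

noncomputable instance (V : Variety k) : Algebra k V.CoordRing :=
  Ideal.Quotient.algebra k

/-- The class of a polynomial in the coordinate ring. -/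
noncomputable def toCoordRing (V : Variety k) : R k →+* V.CoordRing :=
  Ideal.Quotient.mk (vanishing V.carrier)

/-- Field of fractions of the bihomogeneous coordinate ring of `V`. -/
def FracField (V : Variety k) : Type := FractionRing V.CoordRing

noncomputable instance (V : Variety k) : Field V.FracField := FractionRing.field V.CoordRing

noncomputable instance (V : Variety k) : Algebra V.CoordRing V.FracField :=
  OreLocalization.instAlgebra

noncomputable instance (V : Variety k) : Algebra k V.FracField := OreLocalization.instAlgebra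

/-- The class of a polynomial in `V.FracField`. -/
noncomputable def cls (V : Variety k) (F : R k) : V.FracField :=
  algebraMap V.CoordRing V.FracField (V.toCoordRing F)

/-- The function field `k(V)`, generated by the ratios `F / G` of bihomogeneous forms of the same
bidegree with `G` not vanishing identically on `V`. -/
noncomputable def ratFun (V : Variety k) : IntermediateField k V.FracField :=
  IntermediateField.adjoin k {z | ∃ (a b : ℕ) (F G : R k), IsBihom F a b ∧ IsBihom G a b ∧
    G ∉ vanishing V.carrier ∧ z = V.cls F / V.cls G}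

/-- The function field as a type. -/
def Fun (V : Variety k) : Type := V.ratFun

noncomputable instance (V : Variety k) : Field V.Fun := V.ratFun.toField

noncomputable instance (V : Variety k) : Algebra k V.Fun := V.ratFun.algebra'

/-- The inclusion of the function field in `V.FracField`. -/
def val (V : Variety k) (f : V.Fun) : V.FracField := Subtype.val f

/-- The dimension of `V`. -/
noncomputable def dimension (V : Variety k) : ℕ := Cardinal.toNat (Algebra.trdeg k V.Fun)

/-- The differential of `F` at `(u, v)`, applied to the vector `w`. -/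
noncomputable def diff (F : R k) (u v : Fin 3 → k) (w : Fin 3 ⊕ Fin 3 → k) : k :=
  ∑ j, w j * value (pderiv j F) u v

/-- Tangent space at `(u, v)` of the bicone over `V`: the common kernel of the differentials of all
polynomials vanishing on `V`. -/
def tangent (V : Variety k) (u v : Fin 3 → k) : Submodule k (Fin 3 ⊕ Fin 3 → k) where
  carrier := {w | ∀ F ∈ vanishing V.carrier, diff F u v w = 0}
  add_mem' := by
    intro w₁ w₂ h₁ h₂ F hF
    have e₁ := h₁ F hF
    have e₂ := h₂ F hF
    simp only [diff] at e₁ e₂ ⊢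
    simp only [Pi.add_apply, add_mul, Finset.sum_add_distrib, e₁, e₂, add_zero]
  zero_mem' := by intro F _; simp [diff]
  smul_mem' := by
    intro c w h F hF
    have e := h F hF
    simp only [diff] at e ⊢
    simp only [Pi.smul_apply, smul_eq_mul, mul_assoc, ← Finset.mul_sum, e, mul_zero]

/-- `V` is smooth: at every point the tangent space of the bicone has dimension at most
`dim V + 2` (i.e. the tangent space of `V` has dimension at most `dim V`). -/
def Smooth (V : Variety k) : Prop :=
  ∀ (u v : Fin 3 → k) (hu : u ≠ 0) (hv : v ≠ 0), point u v hu hv ∈ V.carrier →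
    Module.finrank k (V.tangent u v) ≤ V.dimension + 2

/-- A dominant rational map `V ⇢ Pⁿ`, written in affine coordinates of `Pⁿ`: `n` rational
functions, algebraically independent over `k`. -/
def Dominant (V : Variety k) {n : ℕ} (w : Fin n → V.Fun) : Prop := AlgebraicIndependent k w

/-- The field `k(w₁,…,wₙ)`. -/
noncomputable def gen (V : Variety k) {n : ℕ} (w : Fin n → V.Fun) : IntermediateField k V.Fun :=
  IntermediateField.adjoin k (Set.range w)

/-- The degree `[k(V) : k(w₁,…,wₙ)]` of a rational map. -/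
noncomputable def deg (V : Variety k) {n : ℕ} (w : Fin n → V.Fun) : ℕ :=
  Module.finrank (V.gen w) V.Fun

/-- `w : V ⇢ Pⁿ` is dominant, of minimal degree among all dominant rational maps `V ⇢ Pⁿ`. -/
def IsMinimal (V : Variety k) {n : ℕ} (w : Fin n → V.Fun) : Prop :=
  V.Dominant w ∧ ∀ w' : Fin n → V.Fun, V.Dominant w' → V.deg w ≤ V.deg w'

/-- The gonality: the least degree of a dominant rational map to `P¹`, i.e. of a nonconstant
rational function (for a curve `V`, of a nonconstant morphism from its normalization to `P¹`). -/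
noncomputable def gonality (V : Variety k) : ℕ :=
  sInf {d | 0 < d ∧ ∃ f : Fin 1 → V.Fun, V.Dominant f ∧ V.deg f = d}

/-- `ψ` is the restriction to `V` of the first projection `P² × P² → P²`, in affine coordinates:
`x₀` does not vanish identically on `V` and `ψ = (x₁/x₀, x₂/x₀)`. (The projection is a morphism, so
for a line `L` the closure in `V` of `ψ⁻¹(L)` is the set of the points of `V` whose first component
lies on `L`.) -/
def IsFirstProjection (V : Variety k) (ψ : Fin 2 → V.Fun) : Prop :=
  (X (Sum.inl 0) : R k) ∉ vanishing V.carrier ∧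
    ∀ i : Fin 2, V.val (ψ i) = V.cls (X (Sum.inl i.succ)) / V.cls (X (Sum.inl 0))

/-- `V` is the surface `x₀y₀² + x₁y₁² + x₂y₂² = 0`, `x₀²y₀ + x₁²y₁ + x₂²y₂ = 0`. -/
def IsSurface (V : Variety k) : Prop :=
  ∀ (u v : Fin 3 → k) (hu : u ≠ 0) (hv : v ≠ 0), point u v hu hv ∈ V.carrier ↔
    u 0 * v 0 ^ 2 + u 1 * v 1 ^ 2 + u 2 * v 2 ^ 2 = 0 ∧
    u 0 ^ 2 * v 0 + u 1 ^ 2 * v 1 + u 2 ^ 2 * v 2 = 0

/-- `C` is the preimage in `V` of the line `a₀x₀ + a₁x₁ + a₂x₂ = 0` under the first projection. -/
def IsPreimage (C V : Variety k) (a : Fin 3 → k) : Prop :=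
  ∀ (u v : Fin 3 → k) (hu : u ≠ 0) (hv : v ≠ 0), point u v hu hv ∈ C.carrier ↔
    point u v hu hv ∈ V.carrier ∧ a 0 * u 0 + a 1 * u 1 + a 2 * u 2 = 0

end Variety

/-- `P` holds for the general line `a₀x₀ + a₁x₁ + a₂x₂ = 0` of `P²`: for all lines outside a
hypersurface `G = 0` of the dual plane. -/
def ForGeneralLine (P : (Fin 3 → k) → Prop) : Prop :=
  ∃ (d : ℕ) (G : MvPolynomial (Fin 3) k), G ≠ 0 ∧ G.IsHomogeneous d ∧
    ∀ a : Fin 3 → k, a ≠ 0 → MvPolynomial.eval a G ≠ 0 → P a

/-! ### Auxiliary versions with reducible types, used only in the proofs -/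

namespace Variety

/-- (auxiliary) reducible version of `FracField` -/
abbrev Frac (V : Variety k) : Type := FractionRing (R k ⧸ vanishing V.carrier)

/-- (auxiliary) version of `cls` -/
noncomputable def cl (V : Variety k) (F : R k) : V.Frac :=
  algebraMap (R k ⧸ vanishing V.carrier) V.Frac (Ideal.Quotient.mk _ F)

/-- (auxiliary) version of `ratFun` -/
noncomputable def functionField (V : Variety k) : IntermediateField k V.Frac :=
  IntermediateField.adjoin k {z | ∃ (a b : ℕ) (F G : R k), IsBihom F a b ∧ IsBihom G a b ∧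
    G ∉ vanishing V.carrier ∧ z = V.cl F / V.cl G}

/-- (auxiliary) version of `dimension` -/
noncomputable def dim (V : Variety k) : ℕ :=
  Cardinal.toNat (Algebra.trdeg k V.functionField)

/-- (auxiliary) version of `Dominant` -/
def IsDominant (V : Variety k) {n : ℕ} (w : Fin n → V.functionField) : Prop :=
  AlgebraicIndependent k w

/-- (auxiliary) version of `deg` -/
noncomputable def degree (V : Variety k) {n : ℕ} (w : Fin n → V.functionField) : ℕ :=
  Module.finrank (IntermediateField.adjoin k (Set.range w)) V.functionField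

end Variety

/-! ### General lemmas -/

theorem mem_vanishing {Z : Set (P2 k × P2 k)} {F : R k} : F ∈ vanishing Z ↔
    ∀ (u v : Fin 3 → k) (hu : u ≠ 0) (hv : v ≠ 0), point u v hu hv ∈ Z → value F u v = 0 :=
  Iff.rfl

theorem cl_eq_zero (V : Variety k) (F : R k) : V.cl F = 0 ↔ F ∈ vanishing V.carrier := by
  rw [Variety.cl, IsFractionRing.to_map_eq_zero_iff, Ideal.Quotient.eq_zero_iff_mem]

/-- `cl` as an algebra homomorphism. -/
noncomputable def clHom (V : Variety k) : R k →ₐ[k] V.Frac :=
  (IsScalarTower.toAlgHom k (R k ⧸ vanishing V.carrier) V.Frac).comp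
    (Ideal.Quotient.mkₐ k (vanishing V.carrier))

theorem clHom_apply (V : Variety k) (F : R k) : clHom V F = V.cl F := rfl

theorem clHom_eq_aeval (V : Variety k) (F : R k) :
    clHom V F = aeval (fun j => V.cl (X j)) F := by
  rw [show clHom V = aeval (fun j => V.cl (X j)) from by
    ext j; simp [clHom_apply]]

theorem bihom_aeval {L : Type} [Field L] [Algebra k L] (F : R k) (a b : ℕ) (hF : IsBihom F a b)
    (lam mu : L) (p q : Fin 3 → L) :
    aeval (Sum.elim (fun i => lam * p i) (fun i => mu * q i)) F =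
      lam ^ a * mu ^ b * aeval (Sum.elim p q) F := by
  rw [aeval_def, aeval_def, eval₂_eq', eval₂_eq', Finset.mul_sum]
  apply Finset.sum_congr rfl
  intro m hm
  obtain ⟨h1, h2⟩ := hF m hm
  rw [Fintype.prod_sum_type, Fintype.prod_sum_type]
  simp only [Sum.elim_inl, Sum.elim_inr, mul_pow, Finset.prod_mul_distrib,
    Finset.prod_pow_eq_pow_sum, h1, h2]
  ring

theorem functionField_le (V : Variety k) (K' : IntermediateField k V.Frac) (lam mu : V.Frac)
    (p q : Fin 3 → V.Frac) (hp : ∀ i, p i ∈ K') (hq : ∀ i, q i ∈ K')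
    (hx : ∀ i, V.cl (X (Sum.inl i)) = lam * p i) (hy : ∀ i, V.cl (X (Sum.inr i)) = mu * q i) :
    V.functionField ≤ K' := by
  have hfun : (fun j => V.cl (X j)) = Sum.elim (fun i => lam * p i) (fun i => mu * q i) := by
    funext j
    rcases j with i | i
    · exact hx i
    · exact hy i
  have hmem : ∀ F : R k, aeval (Sum.elim p q) F ∈ K' := by
    intro F
    have h1 : aeval (Sum.elim p q) F ∈ Algebra.adjoin k (Set.range (Sum.elim p q)) := by
      rw [Algebra.adjoin_range_eq_range_aeval]
      exact ⟨F, rfl⟩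
    have h2 : Algebra.adjoin k (Set.range (Sum.elim p q)) ≤ K'.toSubalgebra := by
      rw [Algebra.adjoin_le_iff]
      rintro _ ⟨j, rfl⟩
      rcases j with i | i
      · exact hp i
      · exact hq i
    exact h2 h1
  rw [Variety.functionField, IntermediateField.adjoin_le_iff]
  rintro z ⟨a, b, F, G, hF, hG, hGn, rfl⟩
  have eF : V.cl F = lam ^ a * mu ^ b * aeval (Sum.elim p q) F := by
    rw [← clHom_apply, clHom_eq_aeval, hfun, bihom_aeval F a b hF]
  have eG : V.cl G = lam ^ a * mu ^ b * aeval (Sum.elim p q) G := by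
    rw [← clHom_apply, clHom_eq_aeval, hfun, bihom_aeval G a b hG]
  have hG0 : V.cl G ≠ 0 := fun h => hGn ((cl_eq_zero V G).1 h)
  have hc : lam ^ a * mu ^ b ≠ 0 := by
    intro h; rw [eG, h, zero_mul] at hG0; exact hG0 rfl
  rw [eF, eG, mul_div_mul_left _ _ hc]
  exact K'.div_mem (hmem F) (hmem G)


/-- homogenization of `P` with respect to the substitution `hᵢ / g`. -/
noncomputable def homog {n : ℕ} (g : R k) (h : Fin n → R k) (P : MvPolynomial (Fin n) k) : R k :=
  ∑ m ∈ P.support, C (coeff m P) * (g ^ (P.totalDegree - m.sum fun _ e => e) * ∏ i, h i ^ m i)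

theorem homog_spec {n : ℕ} {L : Type} [Field L] [Algebra k L] (φ : R k →ₐ[k] L) (g : R k)
    (h : Fin n → R k) (P : MvPolynomial (Fin n) k) (hg : φ g ≠ 0) :
    φ (homog g h P) = φ g ^ P.totalDegree * aeval (fun i => φ (h i) / φ g) P := by
  rw [homog, map_sum, aeval_def, eval₂_eq', Finset.mul_sum]
  apply Finset.sum_congr rfl
  intro m hm
  have hle : (m.sum fun _ e => e) ≤ P.totalDegree := le_totalDegree hm
  have hsum : (m.sum fun _ e => e) = ∑ i, m i := Finsupp.sum_fintype _ _ (fun _ => rfl)
  rw [map_mul, map_mul, map_pow, map_prod]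
  have hC : φ (C (coeff m P)) = algebraMap k L (coeff m P) := by
    rw [← MvPolynomial.algebraMap_eq]; exact φ.commutes _
  rw [hC]
  simp only [div_pow, Finset.prod_div_distrib, map_pow, Finset.prod_pow_eq_pow_sum]
  rw [hsum] at hle ⊢
  obtain ⟨d, hd⟩ := Nat.exists_eq_add_of_le hle
  rw [hd, Nat.add_sub_cancel_left, pow_add]
  field_simp

/-- evaluation at a point -/
noncomputable def evHom (u v : Fin 3 → k) : R k →ₐ[k] k := aeval (Sum.elim u v)

theorem evHom_apply (u v : Fin 3 → k) (F : R k) : evHom u v F = value F u v := by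
  rw [evHom, value, ← MvPolynomial.coe_aeval_eq_eval]; rfl

theorem transfer (V : Variety k) {n : ℕ} (g : R k) (h : Fin n → R k) (P : MvPolynomial (Fin n) k)
    (hg : V.cl g ≠ 0) (hP : aeval (fun i => V.cl (h i) / V.cl g) P = 0)
    (u v : Fin 3 → k) (hu : u ≠ 0) (hv : v ≠ 0) (hpt : point u v hu hv ∈ V.carrier)
    (hguv : value g u v ≠ 0) :
    eval (fun i => value (h i) u v / value g u v) P = 0 := by
  have h1 := homog_spec (clHom V) g h P hg
  have h2 : clHom V (homog g h P) = 0 := by
    rw [h1]
    have : (fun i => clHom V (h i) / clHom V g) = (fun i => V.cl (h i) / V.cl g) := rfl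
    rw [this, hP, mul_zero]
  have h3 : homog g h P ∈ vanishing V.carrier := (cl_eq_zero V _).1 h2
  have h4 := h3 u v hu hv hpt
  have h5 := homog_spec (evHom u v) g h P (by rw [evHom_apply]; exact hguv)
  rw [evHom_apply, h4] at h5
  have h6 := (mul_eq_zero.1 h5.symm).resolve_left
    (pow_ne_zero _ (by rw [evHom_apply]; exact hguv))
  simp only [evHom_apply] at h6
  rw [← MvPolynomial.coe_aeval_eq_eval]
  exact h6

end GonDefs

section GonNR

/-! Non-rationality of the function field of the surface
`x₀y₀²+x₁y₁²+x₂y₂² = x₀²y₀+x₁²y₁+x₂²y₂ = 0` in characteristic two. -/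



variable {k : Type} [Field k]

/-- the plane polynomial ring -/
abbrev A (k : Type) [Field k] := MvPolynomial (Fin 2) k

/-- elements of `Q` killed by the extension of the derivation `D`. -/
def constField (D : Derivation k (A k) (A k)) : IntermediateField k (FractionRing (A k)) where
  carrier := {q | ∃ a b : A k, b ≠ 0 ∧ q * algebraMap (A k) _ b = algebraMap (A k) _ a ∧
    D a * b = a * D b}
  mul_mem' := by
    rintro q₁ q₂ ⟨a₁, b₁, h₁, e₁, d₁⟩ ⟨a₂, b₂, h₂, e₂, d₂⟩
    refine ⟨a₁ * a₂, b₁ * b₂, mul_ne_zero h₁ h₂, ?_, ?_⟩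
    · rw [map_mul, map_mul, ← e₁, ← e₂]; ring
    · simp only [Derivation.leibniz, smul_eq_mul]
      linear_combination a₂ * b₂ * d₁ + a₁ * b₁ * d₂
  add_mem' := by
    rintro q₁ q₂ ⟨a₁, b₁, h₁, e₁, d₁⟩ ⟨a₂, b₂, h₂, e₂, d₂⟩
    refine ⟨a₁ * b₂ + a₂ * b₁, b₁ * b₂, mul_ne_zero h₁ h₂, ?_, ?_⟩
    · rw [map_mul, map_add, map_mul, map_mul, ← e₁, ← e₂]; ring
    · simp only [Derivation.leibniz, smul_eq_mul, map_add]
      linear_combination b₂ ^ 2 * d₁ + b₁ ^ 2 * d₂
  algebraMap_mem' := by
    intro c
    refine ⟨C c, 1, one_ne_zero, ?_, ?_⟩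
    · rw [map_one, mul_one, IsScalarTower.algebraMap_apply k (A k) (FractionRing (A k))]
      rfl
    · have : D (C c) = 0 := by
        rw [← MvPolynomial.algebraMap_eq]; exact D.map_algebraMap c
      rw [this]; simp
  inv_mem' := by
    rintro q ⟨a, b, h, e, d⟩
    by_cases hq : q = 0
    · subst hq
      refine ⟨0, 1, one_ne_zero, by simp, by simp⟩
    · have ha : a ≠ 0 := by
        rintro rfl
        rw [map_zero] at e
        rcases mul_eq_zero.1 e with h' | h'
        · exact hq h'
        · exact h ((IsFractionRing.to_map_eq_zero_iff).1 h')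
      refine ⟨b, a, ha, ?_, ?_⟩
      · rw [← e]; field_simp
      · linear_combination -d

theorem mem_constField {D : Derivation k (A k) (A k)} {u : A k}
    (h : algebraMap (A k) (FractionRing (A k)) u ∈ constField D) : D u = 0 := by
  obtain ⟨a, b, hb, e, d⟩ := h
  rw [← map_mul] at e
  have e' := IsFractionRing.injective (A k) (FractionRing (A k)) e
  subst e'
  rw [Derivation.leibniz, smul_eq_mul, smul_eq_mul] at d
  have : D u * b ^ 2 = 0 := by linear_combination d
  rcases mul_eq_zero.1 this with h' | h'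
  · exact h'
  · exact absurd (pow_eq_zero_iff (by norm_num) |>.1 h') hb

/-- ratio of two polynomials `a / b` with `D a * b = a * D b` is constant. -/
theorem div_mem_constField {D : Derivation k (A k) (A k)} {a b : A k} (hb : b ≠ 0)
    (h : D a * b = a * D b) :
    algebraMap (A k) (FractionRing (A k)) a / algebraMap (A k) (FractionRing (A k)) b ∈
      constField D := by
  refine ⟨a, b, hb, ?_, h⟩
  have : algebraMap (A k) (FractionRing (A k)) b ≠ 0 := by
    intro h'; exact hb ((IsFractionRing.to_map_eq_zero_iff).1 h')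
  field_simp

/-- Divisibility by a vector with trivial gcd. -/
theorem exists_eta [NormalizedGCDMonoid (A k)] (c z : Fin 3 → A k)
    (hz : Finset.univ.gcd z = 1) (h : ∀ i j, c i * z j = c j * z i) :
    ∃ η : A k, ∀ i, c i = η * z i := by
  have hz0 : ∃ i, z i ≠ 0 := by
    by_contra hcon
    push Not at hcon
    have : Finset.univ.gcd z = 0 := Finset.gcd_eq_zero_iff.2 (fun i _ => hcon i)
    rw [this] at hz
    exact zero_ne_one hz
  have hdvd : ∀ i, z i ∣ c i := by
    intro i
    have h1 : z i ∣ Finset.univ.gcd (fun j => c i * z j) := by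
      apply Finset.dvd_gcd
      intro j _
      rw [h i j]
      exact dvd_mul_left _ _
    have h2 := Finset.gcd_mul_left' Finset.univ z (c i)
    rw [hz, mul_one] at h2
    exact h1.trans h2.dvd
  obtain ⟨i, hi⟩ := hz0
  obtain ⟨η, hη⟩ := hdvd i
  refine ⟨η, fun j => ?_⟩
  apply mul_left_cancel₀ hi
  have := h j i
  rw [hη] at this
  linear_combination this

theorem gcd_sq [NormalizedGCDMonoid (A k)] (y : Fin 3 → A k)
    (hy : Finset.univ.gcd y = 1) : Finset.univ.gcd (fun i => y i ^ 2) = 1 := by
  have hu : IsUnit (Finset.univ.gcd (fun i => y i ^ 2)) := by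
    by_contra hnu
    have hne : Finset.univ.gcd (fun i => y i ^ 2) ≠ 0 := by
      intro h0
      have h1 := Finset.gcd_eq_zero_iff.1 h0
      have : Finset.univ.gcd y = 0 :=
        Finset.gcd_eq_zero_iff.2 (fun i hi => pow_eq_zero_iff (by norm_num) |>.1 (h1 i hi))
      rw [this] at hy
      exact zero_ne_one hy
    obtain ⟨p, hp, hpd⟩ := WfDvdMonoid.exists_irreducible_factor hnu hne
    have hpp : Prime p := UniqueFactorizationMonoid.irreducible_iff_prime.1 hp
    have : p ∣ Finset.univ.gcd y := by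
      apply Finset.dvd_gcd
      intro i hi
      exact hpp.dvd_of_dvd_pow (hpd.trans (Finset.gcd_dvd (f := fun i => y i ^ 2) hi))
    rw [hy] at this
    exact hp.not_isUnit (isUnit_of_dvd_one this)
  have h3 := Finset.normalize_gcd (s := (Finset.univ : Finset (Fin 3))) (f := fun i => y i ^ 2)
  rw [← h3]
  exact normalize_eq_one.2 hu

/-- cross product -/
def cr {B : Type} [CommRing B] (a b : Fin 3 → B) : Fin 3 → B :=
  ![a 1 * b 2 - a 2 * b 1, a 2 * b 0 - a 0 * b 2, a 0 * b 1 - a 1 * b 0]

/-- If `a`, `b` are both orthogonal to `z` then `a × b` is parallel to `z`. -/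
theorem cr_par {B : Type} [CommRing B] (a b z : Fin 3 → B)
    (ha : a 0 * z 0 + a 1 * z 1 + a 2 * z 2 = 0) (hb : b 0 * z 0 + b 1 * z 1 + b 2 * z 2 = 0) :
    ∀ i j, cr a b i * z j = cr a b j * z i := by
  have h01 : cr a b 0 * z 1 = cr a b 1 * z 0 := by
    simp only [cr, Matrix.cons_val_zero, Matrix.cons_val_one]
    linear_combination b 2 * ha - a 2 * hb
  have h12 : cr a b 1 * z 2 = cr a b 2 * z 1 := by
    simp only [cr, Matrix.cons_val_one, Matrix.cons_val]
    linear_combination b 0 * ha - a 0 * hb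
  have h20 : cr a b 2 * z 0 = cr a b 0 * z 2 := by
    simp only [cr, Matrix.cons_val_zero, Matrix.cons_val]
    linear_combination b 1 * ha - a 1 * hb
  intro i j
  fin_cases i <;> fin_cases j
  · rfl
  · exact h01
  · exact h20.symm
  · exact h01.symm
  · rfl
  · exact h12
  · exact h20
  · exact h12.symm
  · rfl


theorem deg_pderiv (p : A k) (i : Fin 2) (n : ℕ) (hp : p.totalDegree ≤ n + 1) :
    (pderiv i p).totalDegree ≤ n := by
  apply Finset.sup_le
  intro m hm
  have hc : coeff (m + Finsupp.single i 1) p ≠ 0 := by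
    intro h0
    rw [mem_support_iff, coeff_pderiv, h0, zero_mul] at hm
    exact hm rfl
  have h1 := le_totalDegree (mem_support_iff.2 hc)
  rw [Finsupp.sum_add_index' (fun _ => rfl) (fun _ _ _ => rfl),
    Finsupp.sum_single_index rfl] at h1
  omega

theorem pderiv_eq_zero_of_deg (p : A k) (i : Fin 2) (hp : p.totalDegree = 0) :
    pderiv i p = 0 := by
  rw [totalDegree_eq_zero_iff_eq_C] at hp
  rw [hp, pderiv_C]

theorem deg_sub_mul (a b c d : A k) (n : ℕ) (ha : a.totalDegree ≤ n + 1)
    (hb : b.totalDegree ≤ n) (hc : c.totalDegree ≤ n + 1) (hd : d.totalDegree ≤ n) :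
    (a * b - c * d).totalDegree + 1 ≤ 2 * (n + 1) := by
  have h1 := totalDegree_mul a b
  have h2 := totalDegree_mul c d
  have h3 := totalDegree_sub (a * b) (c * d)
  have h4 : max (a * b).totalDegree (c * d).totalDegree ≤ 2 * n + 1 :=
    max_le (by omega) (by omega)
  omega

theorem deg_cr (x : Fin 3 → A k) (i : Fin 2) (n : ℕ) (hx : ∀ j, (x j).totalDegree ≤ n) (j : Fin 3)
    (hne : cr x (fun l => pderiv i (x l)) j ≠ 0) :
    (cr x (fun l => pderiv i (x l)) j).totalDegree + 1 ≤ 2 * n := by
  rcases Nat.eq_zero_or_pos n with h0 | hpos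
  · exfalso
    apply hne
    have hz : ∀ l, pderiv i (x l) = 0 := fun l =>
      pderiv_eq_zero_of_deg _ _ (by have := hx l; omega)
    fin_cases j <;> simp [cr, hz]
  · obtain ⟨m, rfl⟩ : ∃ m, n = m + 1 := ⟨n - 1, by omega⟩
    have hd : ∀ l, (pderiv i (x l)).totalDegree ≤ m := fun l => deg_pderiv _ _ _ (hx l)
    fin_cases j
    · exact deg_sub_mul _ _ _ _ _ (hx 1) (hd 2) (hx 2) (hd 1)
    · exact deg_sub_mul _ _ _ _ _ (hx 2) (hd 0) (hx 0) (hd 2)
    · exact deg_sub_mul _ _ _ _ _ (hx 0) (hd 1) (hx 1) (hd 0)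

theorem exists_max_deg (x : Fin 3 → A k) (hx : x ≠ 0) :
    ∃ j, x j ≠ 0 ∧ ∀ i, (x i).totalDegree ≤ (x j).totalDegree := by
  classical
  obtain ⟨i₀, hi₀⟩ := Function.ne_iff.1 hx
  obtain ⟨j, hj, hmax⟩ := Finset.exists_max_image
    (Finset.univ.filter (fun i => x i ≠ 0)) (fun i => (x i).totalDegree) ⟨i₀, by simpa using hi₀⟩
  refine ⟨j, (Finset.mem_filter.1 hj).2, fun i => ?_⟩
  by_cases h : x i = 0
  · rw [h]; simp
  · exact hmax i (by simpa using h)

/-- degree comparison -/
theorem eta_deg (x z : Fin 3 → A k) (i : Fin 2) (η : A k)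
    (hη : ∀ j, cr x (fun l => pderiv i (x l)) j = η * z j ^ 2) (hη0 : η ≠ 0)
    (a b : ℕ) (ha : ∀ j, (x j).totalDegree ≤ a) (hb : ∃ j, z j ≠ 0 ∧ (z j).totalDegree = b) :
    b < a := by
  obtain ⟨j, hj, hjb⟩ := hb
  have hne : cr x (fun l => pderiv i (x l)) j ≠ 0 := by
    rw [hη j]; exact mul_ne_zero hη0 (pow_ne_zero 2 hj)
  have h1 := deg_cr x i a ha j hne
  rw [hη j, totalDegree_mul_of_isDomain hη0 (pow_ne_zero 2 hj), pow_two,
    totalDegree_mul_of_isDomain hj hj, hjb] at h1
  omega


theorem exists_comb {η θ : Fin 2 → A k} (h : η = 0 ∨ θ = 0) :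
    ∃ α β : A k, (α ≠ 0 ∨ β ≠ 0) ∧ α * η 0 + β * η 1 = 0 ∧ α * θ 0 + β * θ 1 = 0 := by
  rcases h with h | h
  · by_cases hθ : θ = 0
    · exact ⟨1, 0, Or.inl one_ne_zero, by simp [h], by simp [hθ]⟩
    · refine ⟨θ 1, -θ 0, ?_, by simp [h], by ring⟩
      by_contra hcon
      push Not at hcon
      apply hθ
      funext i
      fin_cases i
      · exact neg_eq_zero.1 hcon.2
      · exact hcon.1
  · by_cases hη : η = 0
    · exact ⟨1, 0, Or.inl one_ne_zero, by simp [hη], by simp [h]⟩
    · refine ⟨η 1, -η 0, ?_, by ring, by simp [h]⟩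
      by_contra hcon
      push Not at hcon
      apply hη
      funext i
      fin_cases i
      · exact neg_eq_zero.1 hcon.2
      · exact hcon.1

theorem sum_deriv [CharP k 2] (D : Derivation k (A k) (A k)) (x y : Fin 3 → A k)
    (h : x 0 * y 0 ^ 2 + x 1 * y 1 ^ 2 + x 2 * y 2 ^ 2 = 0) :
    D (x 0) * y 0 ^ 2 + D (x 1) * y 1 ^ 2 + D (x 2) * y 2 ^ 2 = 0 := by
  have h2 : (2 : A k) = 0 := by
    have : ((2 : ℕ) : A k) = 0 := CharP.cast_eq_zero (A k) 2
    simpa using this
  have h1 := congrArg D h
  simp only [map_add, Derivation.leibniz, Derivation.leibniz_pow, smul_eq_mul, map_zero,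
    nsmul_eq_mul] at h1
  push_cast at h1
  linear_combination h1 - (x 0 * y 0 * D (y 0) + x 1 * y 1 * D (y 1) + x 2 * y 2 * D (y 2)) * h2

theorem cr_add_smul (x : Fin 3 → A k) (D₁ D₂ : Derivation k (A k) (A k)) (α β : A k) (j : Fin 3) :
    cr x (fun l => (α • D₁ + β • D₂) (x l)) j =
      α * cr x (fun l => D₁ (x l)) j + β * cr x (fun l => D₂ (x l)) j := by
  fin_cases j <;> simp [cr] <;> ring

theorem exists_D [CharP k 2] [NormalizedGCDMonoid (A k)] (x y : Fin 3 → A k)
    (hx : Finset.univ.gcd x = 1) (hy : Finset.univ.gcd y = 1)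
    (h1 : x 0 * y 0 ^ 2 + x 1 * y 1 ^ 2 + x 2 * y 2 ^ 2 = 0)
    (h2 : y 0 * x 0 ^ 2 + y 1 * x 1 ^ 2 + y 2 * x 2 ^ 2 = 0) :
    ∃ α β : A k, (α ≠ 0 ∨ β ≠ 0) ∧
      (∀ j, cr x (fun l => (α • pderiv 0 + β • pderiv 1 : Derivation k (A k) (A k)) (x l)) j = 0) ∧
      (∀ j, cr y (fun l => (α • pderiv 0 + β • pderiv 1 : Derivation k (A k) (A k)) (y l)) j = 0)
    := by
  have hx0 : x ≠ 0 := by
    rintro rfl
    have : Finset.univ.gcd (0 : Fin 3 → A k) = 0 := Finset.gcd_eq_zero_iff.2 (fun i _ => rfl)
    rw [this] at hx; exact zero_ne_one hx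
  have hy0 : y ≠ 0 := by
    rintro rfl
    have : Finset.univ.gcd (0 : Fin 3 → A k) = 0 := Finset.gcd_eq_zero_iff.2 (fun i _ => rfl)
    rw [this] at hy; exact zero_ne_one hy
  have hη : ∀ i : Fin 2, ∃ η : A k, ∀ j, cr x (fun l => pderiv i (x l)) j = η * y j ^ 2 :=
    fun i => exists_eta _ _ (gcd_sq y hy) (cr_par _ _ _ h1 (sum_deriv _ _ _ h1))
  have hθ : ∀ i : Fin 2, ∃ θ : A k, ∀ j, cr y (fun l => pderiv i (y l)) j = θ * x j ^ 2 :=
    fun i => exists_eta _ _ (gcd_sq x hx) (cr_par _ _ _ h2 (sum_deriv _ _ _ h2))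
  choose η hη using hη
  choose θ hθ using hθ
  obtain ⟨jx, hjx, hmx⟩ := exists_max_deg x hx0
  obtain ⟨jy, hjy, hmy⟩ := exists_max_deg y hy0
  have hor : η = 0 ∨ θ = 0 := by
    by_contra hcon
    push Not at hcon
    obtain ⟨i, hi⟩ := Function.ne_iff.1 hcon.1
    obtain ⟨j, hj⟩ := Function.ne_iff.1 hcon.2
    have e1 := eta_deg x y i (η i) (hη i) hi _ _ hmx ⟨jy, hjy, rfl⟩
    have e2 := eta_deg y x j (θ j) (hθ j) hj _ _ hmy ⟨jx, hjx, rfl⟩
    omega
  obtain ⟨α, β, hne, e1, e2⟩ := exists_comb hor
  refine ⟨α, β, hne, fun j => ?_, fun j => ?_⟩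
  · rw [cr_add_smul, hη, hη]; linear_combination (y j ^ 2) * e1
  · rw [cr_add_smul, hθ, hθ]; linear_combination (x j ^ 2) * e2

/-- clearing denominators -/
theorem exists_primitive [NormalizedGCDMonoid (A k)] (u v : FractionRing (A k)) :
    ∃ x : Fin 3 → A k, x 0 ≠ 0 ∧ Finset.univ.gcd x = 1 ∧
      u = algebraMap (A k) _ (x 1) / algebraMap (A k) _ (x 0) ∧
      v = algebraMap (A k) _ (x 2) / algebraMap (A k) _ (x 0) := by
  obtain ⟨a, b, hb, rfl⟩ := IsFractionRing.div_surjective (A := A k) u
  obtain ⟨c, d, hd, rfl⟩ := IsFractionRing.div_surjective (A := A k) v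
  have hb0 : b ≠ 0 := nonZeroDivisors.ne_zero hb
  have hd0 : d ≠ 0 := nonZeroDivisors.ne_zero hd
  obtain ⟨g, hg, hg1⟩ := Finset.extract_gcd (s := Finset.univ) (![b * d, a * d, c * b] : Fin 3 → A k)
    ⟨0, Finset.mem_univ _⟩
  set G := Finset.univ.gcd (![b * d, a * d, c * b] : Fin 3 → A k) with hG
  have g0 : b * d = G * g 0 := hg 0 (Finset.mem_univ _)
  have g1 : a * d = G * g 1 := hg 1 (Finset.mem_univ _)
  have g2 : c * b = G * g 2 := hg 2 (Finset.mem_univ _)
  have hG0 : G ≠ 0 := by
    intro h; rw [h, zero_mul] at g0; exact mul_ne_zero hb0 hd0 g0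
  have hg0 : g 0 ≠ 0 := by
    intro h; rw [h, mul_zero] at g0; exact mul_ne_zero hb0 hd0 g0
  have inj : ∀ {z : A k}, z ≠ 0 → algebraMap (A k) (FractionRing (A k)) z ≠ 0 := by
    intro z hz h'; exact hz ((IsFractionRing.to_map_eq_zero_iff).1 h')
  refine ⟨g, hg0, hg1, ?_, ?_⟩
  · rw [div_eq_div_iff (inj hb0) (inj hg0), ← map_mul, ← map_mul]
    congr 1
    apply mul_left_cancel₀ (mul_ne_zero hG0 hd0)
    linear_combination (G * g 0) * g1 - (G * g 1) * g0
  · rw [div_eq_div_iff (inj hd0) (inj hg0), ← map_mul, ← map_mul]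
    congr 1
    apply mul_left_cancel₀ (mul_ne_zero hG0 hb0)
    linear_combination (G * g 0) * g2 - (G * g 2) * g0

/-- The function field of the surface is not purely transcendental. -/
theorem nonrational [CharP k 2] (U₁ U₂ V₁ V₂ : FractionRing (A k))
    (h1 : 1 + U₁ * V₁ ^ 2 + U₂ * V₂ ^ 2 = 0) (h2 : 1 + V₁ * U₁ ^ 2 + V₂ * U₂ ^ 2 = 0) :
    IntermediateField.adjoin k {U₁, U₂, V₁, V₂} ≠ ⊤ := by
  classical
  let _ : StrongNormalizationMonoid (A k) := UniqueFactorizationMonoid.strongNormalizationMonoid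
  let _ : NormalizedGCDMonoid (A k) := UniqueFactorizationMonoid.toNormalizedGCDMonoid (A k)
  obtain ⟨x, hx0, hxg, hu1, hu2⟩ := exists_primitive U₁ U₂
  obtain ⟨y, hy0, hyg, hv1, hv2⟩ := exists_primitive V₁ V₂
  have inj : ∀ {z : A k}, z ≠ 0 → algebraMap (A k) (FractionRing (A k)) z ≠ 0 := by
    intro z hz h'; exact hz ((IsFractionRing.to_map_eq_zero_iff).1 h')
  have ex0 := inj hx0
  have ey0 := inj hy0
  have r1 : x 0 * y 0 ^ 2 + x 1 * y 1 ^ 2 + x 2 * y 2 ^ 2 = 0 := by
    apply IsFractionRing.injective (A k) (FractionRing (A k))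
    rw [hu1, hu2, hv1, hv2] at h1
    field_simp at h1
    simp only [map_add, map_mul, map_pow, map_zero]
    linear_combination h1
  have r2 : y 0 * x 0 ^ 2 + y 1 * x 1 ^ 2 + y 2 * x 2 ^ 2 = 0 := by
    apply IsFractionRing.injective (A k) (FractionRing (A k))
    rw [hu1, hu2, hv1, hv2] at h2
    field_simp at h2
    simp only [map_add, map_mul, map_pow, map_zero]
    linear_combination h2
  obtain ⟨α, β, hne, cx, cy⟩ := exists_D x y hxg hyg r1 r2
  intro htop
  set D : Derivation k (A k) (A k) := α • pderiv 0 + β • pderiv 1 with hD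
  have hle : IntermediateField.adjoin k {U₁, U₂, V₁, V₂} ≤ constField D := by
    rw [IntermediateField.adjoin_le_iff]
    intro q hq
    have key : ∀ (z : Fin 3 → A k), z 0 ≠ 0 → (∀ j, cr z (fun l => D (z l)) j = 0) →
        algebraMap (A k) (FractionRing (A k)) (z 1) / algebraMap (A k) _ (z 0) ∈ constField D ∧
        algebraMap (A k) (FractionRing (A k)) (z 2) / algebraMap (A k) _ (z 0) ∈ constField D := by
      intro z hz hc
      constructor
      · apply div_mem_constField hz
        have := hc 2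
        simp only [cr, Matrix.cons_val] at this
        linear_combination this
      · apply div_mem_constField hz
        have := hc 1
        simp only [cr, Matrix.cons_val] at this
        linear_combination -this
    rcases hq with rfl | rfl | rfl | rfl
    · rw [hu1]; exact (key x hx0 cx).1
    · rw [hu2]; exact (key x hx0 cx).2
    · rw [hv1]; exact (key y hy0 cy).1
    · rw [hv2]; exact (key y hy0 cy).2
  rw [htop] at hle
  have hX0 : D (X 0) = 0 := mem_constField (hle IntermediateField.mem_top)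
  have hX1 : D (X 1) = 0 := mem_constField (hle IntermediateField.mem_top)
  rw [hD] at hX0 hX1
  simp only [Derivation.add_apply, Derivation.smul_apply, pderiv_X_self, smul_eq_mul, mul_one,
    pderiv_X_of_ne (show (0 : Fin 2) ≠ 1 by decide), pderiv_X_of_ne (show (1 : Fin 2) ≠ 0 by decide),
    mul_zero, add_zero, zero_add] at hX0 hX1
  rcases hne with h | h
  · exact h hX0
  · exact h hX1

end GonNR

section GonF

/-! Abstract field theory of the function field of the surface. -/



variable {k : Type} [Field k] {K : Type} [Field K] [Algebra k K]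

theorem not_rational [CharP k 2] (U₁ U₂ V₁ V₂ : K)
    (h1 : 1 + U₁ * V₁ ^ 2 + U₂ * V₂ ^ 2 = 0) (h2 : 1 + V₁ * U₁ ^ 2 + V₂ * U₂ ^ 2 = 0)
    (htop : IntermediateField.adjoin k {U₁, U₂, V₁, V₂} = ⊤)
    (w : Fin 2 → K) (hw : AlgebraicIndependent k w) :
    IntermediateField.adjoin k (Set.range w) ≠ ⊤ := by
  intro hcon
  let e : FractionRing (MvPolynomial (Fin 2) k) ≃ₐ[k] K :=
    (hw.aevalEquivField.trans (IntermediateField.equivOfEq hcon)).trans
      IntermediateField.topEquiv
  apply nonrational (e.symm U₁) (e.symm U₂) (e.symm V₁) (e.symm V₂)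
  · rw [← map_pow, ← map_pow, ← map_mul, ← map_mul, ← map_one e.symm, ← map_add, ← map_add, h1,
      map_zero]
  · rw [← map_pow, ← map_pow, ← map_mul, ← map_mul, ← map_one e.symm, ← map_add, ← map_add, h2,
      map_zero]
  · have h := congrArg (IntermediateField.map (e.symm : K →ₐ[k] FractionRing (MvPolynomial (Fin 2) k))) htop
    rw [IntermediateField.adjoin_map] at h
    have himg : (e.symm : K →ₐ[k] FractionRing (MvPolynomial (Fin 2) k)) '' {U₁, U₂, V₁, V₂} =
        {e.symm U₁, e.symm U₂, e.symm V₁, e.symm V₂} := by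
      simp [Set.image_insert_eq]
    rw [himg] at h
    rw [h]
    rw [eq_top_iff]
    intro z _
    exact ⟨e z, trivial, by simp⟩

theorem charP_two [CharP k 2] : (2 : K) = 0 := by
  have h : (2 : k) = 0 := by
    have : ((2 : ℕ) : k) = 0 := CharP.cast_eq_zero k 2
    simpa using this
  have h2 := congrArg (algebraMap k K) h
  rwa [map_ofNat, map_zero] at h2

variable (U₁ U₂ V₁ V₂ : K)

theorem finrank_facts [CharP k 2]
    (h1 : 1 + U₁ * V₁ ^ 2 + U₂ * V₂ ^ 2 = 0) (h2 : 1 + V₁ * U₁ ^ 2 + V₂ * U₂ ^ 2 = 0)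
    (htop : IntermediateField.adjoin k {U₁, U₂, V₁, V₂} = ⊤)
    (hind : AlgebraicIndependent k ![U₁, U₂]) :
    Module.finrank (IntermediateField.adjoin k (Set.range ![U₁, U₂])) K = 2 := by
  have h20 : (2 : K) = 0 := charP_two (k := k)
  set F := IntermediateField.adjoin k (Set.range ![U₁, U₂]) with hF
  have hU₁ : U₁ ∈ F := IntermediateField.subset_adjoin _ _ ⟨0, rfl⟩
  have hU₂ : U₂ ∈ F := IntermediateField.subset_adjoin _ _ ⟨1, rfl⟩
  have hinj := algebraicIndependent_iff.1 hind
  have hU20 : U₂ ≠ 0 := hind.ne_zero 1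
  have hd0 : U₁ * U₂ ^ 3 + U₁ ^ 4 ≠ 0 := by
    intro h0
    have h3 := hinj (X 0 * X 1 ^ 3 + X 0 ^ 4) (by simpa using h0)
    have h4 := congrArg (MvPolynomial.eval ![1, 0]) h3
    simp at h4
  have hV2 : V₂ = -(1 + V₁ * U₁ ^ 2) / U₂ ^ 2 := by
    field_simp
    linear_combination h2
  have hsq : V₁ ^ 2 = -(U₂ ^ 3 + 1) / (U₁ * U₂ ^ 3 + U₁ ^ 4) := by
    rw [eq_div_iff hd0]
    rw [hV2] at h1
    field_simp at h1
    linear_combination h1 - V₁ * U₁ ^ 2 * h20
  obtain ⟨c, hc⟩ : ∃ c : F, (c : K) = -(U₂ ^ 3 + 1) / (U₁ * U₂ ^ 3 + U₁ ^ 4) :=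
    ⟨⟨-(U₂ ^ 3 + 1) / (U₁ * U₂ ^ 3 + U₁ ^ 4),
    F.div_mem (F.neg_mem (F.add_mem (pow_mem hU₂ 3) F.one_mem))
      (F.add_mem (F.mul_mem hU₁ (pow_mem hU₂ 3)) (pow_mem hU₁ 4))⟩, rfl⟩
  have hroot : Polynomial.aeval V₁ (Polynomial.X ^ 2 - Polynomial.C c) = 0 := by
    simp only [map_sub, map_pow, Polynomial.aeval_X, Polynomial.aeval_C]
    rw [hsq, sub_eq_zero, IntermediateField.algebraMap_apply, hc]
  have hmonic : (Polynomial.X ^ 2 - Polynomial.C c).Monic :=
    Polynomial.monic_X_pow_sub_C c (by norm_num)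
  have hint : IsIntegral F V₁ := ⟨_, hmonic, by simpa [Polynomial.aeval_def] using hroot⟩
  have hFtop : IntermediateField.adjoin F {V₁} = ⊤ := by
    rw [← IntermediateField.restrictScalars_eq_top_iff (K := k), eq_top_iff, ← htop,
      IntermediateField.adjoin_le_iff]
    have m1 : V₁ ∈ (IntermediateField.adjoin F {V₁}).restrictScalars k :=
      IntermediateField.mem_adjoin_simple_self F V₁
    have mF : ∀ z ∈ F, z ∈ (IntermediateField.adjoin F {V₁}).restrictScalars k := by
      intro z hz
      exact (IntermediateField.adjoin F {V₁}).algebraMap_mem ⟨z, hz⟩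
    rintro z (rfl | rfl | rfl | rfl)
    · exact mF _ hU₁
    · exact mF _ hU₂
    · exact m1
    · rw [hV2]
      set E := (IntermediateField.adjoin F {V₁}).restrictScalars k
      exact E.div_mem (E.neg_mem (E.add_mem E.one_mem (E.mul_mem m1 (pow_mem (mF _ hU₁) 2))))
        (pow_mem (mF _ hU₂) 2)
  have hfr : Module.finrank F K = (minpoly F V₁).natDegree := by
    rw [← IntermediateField.adjoin.finrank hint, hFtop, IntermediateField.finrank_top']
  have hle : (minpoly F V₁).natDegree ≤ 2 := by
    have := Polynomial.natDegree_le_of_dvd (minpoly.dvd F V₁ hroot) hmonic.ne_zero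
    rwa [Polynomial.natDegree_X_pow_sub_C] at this
  have hpos : 0 < (minpoly F V₁).natDegree := minpoly.natDegree_pos hint
  have hne1 : Module.finrank F K ≠ 1 := by
    intro h
    rw [IntermediateField.finrank_eq_one_iff_eq_top] at h
    exact not_rational U₁ U₂ V₁ V₂ h1 h2 htop _ hind h
  omega

theorem transBasis_of_finite (w : Fin 2 → K) (hind : AlgebraicIndependent k w)
    (h : 0 < Module.finrank (IntermediateField.adjoin k (Set.range w)) K) :
    IsTranscendenceBasis k w := by
  have : FiniteDimensional (IntermediateField.adjoin k (Set.range w)) K :=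
    Module.finite_of_finrank_pos h
  rw [hind.isTranscendenceBasis_iff_isAlgebraic]
  have halg : Algebra.IsAlgebraic (IntermediateField.adjoin k (Set.range w)) K := inferInstance
  open scoped IntermediateField.algebraAdjoinAdjoin in
  exact (IsFractionRing.comap_isAlgebraic_iff (A := Algebra.adjoin k (Set.range w))
    (K := IntermediateField.adjoin k (Set.range w)) (C := K)).2 halg

theorem trdeg_eq_two (w : Fin 2 → K) (h : IsTranscendenceBasis k w) :
    Cardinal.toNat (Algebra.trdeg k K) = 2 := by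
  have := h.lift_cardinalMk_eq_trdeg
  simp only [Cardinal.lift_id] at this
  rw [← this]
  simp

theorem two_le_degree [CharP k 2]
    (h1 : 1 + U₁ * V₁ ^ 2 + U₂ * V₂ ^ 2 = 0) (h2 : 1 + V₁ * U₁ ^ 2 + V₂ * U₂ ^ 2 = 0)
    (htop : IntermediateField.adjoin k {U₁, U₂, V₁, V₂} = ⊤)
    (hbasis : IsTranscendenceBasis k ![U₁, U₂]) (w : Fin 2 → K)
    (hw : AlgebraicIndependent k w) :
    2 ≤ Module.finrank (IntermediateField.adjoin k (Set.range w)) K := by
  have hwb : IsTranscendenceBasis k w := by
    apply hw.isTranscendenceBasis_of_lift_trdeg_le_of_finite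
    rw [← hbasis.lift_cardinalMk_eq_trdeg]
  have halg := hwb.isAlgebraic_field
  set F := IntermediateField.adjoin k (Set.range w) with hF
  have hfin : FiniteDimensional F K := by
    have h3 : IntermediateField.adjoin F ({U₁, U₂, V₁, V₂} : Set K) = ⊤ := by
      rw [← IntermediateField.restrictScalars_eq_top_iff (K := k), eq_top_iff, ← htop,
        IntermediateField.adjoin_le_iff]
      exact IntermediateField.subset_adjoin F _
    have h4 : FiniteDimensional F (IntermediateField.adjoin F ({U₁, U₂, V₁, V₂} : Set K)) :=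
      IntermediateField.finiteDimensional_adjoin (fun x _ => (halg.isAlgebraic x).isIntegral)
    rw [h3] at h4
    exact Module.Finite.equiv (IntermediateField.topEquiv (F := F) (E := K)).toLinearEquiv
  have hpos : 0 < Module.finrank F K := Module.finrank_pos
  have hne1 : Module.finrank F K ≠ 1 := by
    intro h
    rw [IntermediateField.finrank_eq_one_iff_eq_top] at h
    exact not_rational U₁ U₂ V₁ V₂ h1 h2 htop w hw h
  omega

end GonF

section GonX

/-- dot product -/
def dot {B : Type} [CommRing B] (a b : Fin 3 → B) : B := a 0 * b 0 + a 1 * b 1 + a 2 * b 2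

theorem dot_cr_left {B : Type} [CommRing B] (a b : Fin 3 → B) : dot a (cr a b) = 0 := by
  simp only [dot, cr, Matrix.cons_val_zero, Matrix.cons_val_one, Matrix.cons_val]; ring

theorem dot_cr_right {B : Type} [CommRing B] (a b : Fin 3 → B) : dot b (cr a b) = 0 := by
  simp only [dot, cr, Matrix.cons_val_zero, Matrix.cons_val_one, Matrix.cons_val]; ring

variable {k : Type} [Field k]

theorem cr_surj (z v : Fin 3 → k) (hz : z ≠ 0) (h : dot z v = 0) : ∃ n, cr n z = v := by
  obtain ⟨i, hi⟩ := Function.ne_iff.1 hz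
  simp only [dot] at h
  simp only [Pi.zero_apply] at hi
  fin_cases i
  · simp only [Fin.zero_eta] at hi
    refine ⟨![0, -v 2 / z 0, v 1 / z 0], ?_⟩
    funext j
    fin_cases j <;> simp [cr] <;> field_simp <;> linear_combination -h
  · simp only [Fin.mk_one] at hi
    refine ⟨![v 2 / z 1, 0, -v 0 / z 1], ?_⟩
    funext j
    fin_cases j <;> simp [cr] <;> field_simp <;> linear_combination -h
  · simp only [Fin.reduceFinMk] at hi
    refine ⟨![-v 1 / z 2, v 0 / z 2, 0], ?_⟩
    funext j
    fin_cases j <;> simp [cr] <;> field_simp <;> linear_combination -h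

theorem par_cr (a b v : Fin 3 → k) (h : cr a b ≠ 0) (ha : dot a v = 0) (hb : dot b v = 0) :
    ∃ t, ∀ i, v i = t * cr a b i := by
  obtain ⟨i, hi⟩ := Function.ne_iff.1 h
  simp only [Pi.zero_apply] at hi
  refine ⟨v i / cr a b i, fun j => ?_⟩
  have := cr_par a b v ha hb i j
  field_simp
  linear_combination this

theorem two_zero (k : Type) [Field k] [CharP k 2] : (2 : k) = 0 := by
  have : ((2 : ℕ) : k) = 0 := CharP.cast_eq_zero k 2
  simpa using this

theorem exists_sqrt [IsAlgClosed k] (u : Fin 3 → k) : ∃ s : Fin 3 → k, ∀ i, s i ^ 2 = u i := by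
  choose s hs using fun i => IsAlgClosed.exists_pow_nat_eq (u i) (n := 2) (by norm_num)
  exact ⟨s, hs⟩

/-- first equation -/
def valF {B : Type} [CommRing B] (u v : Fin 3 → B) : B :=
  u 0 * v 0 ^ 2 + u 1 * v 1 ^ 2 + u 2 * v 2 ^ 2

/-- second equation -/
def valG {B : Type} [CommRing B] (u v : Fin 3 → B) : B :=
  u 0 ^ 2 * v 0 + u 1 ^ 2 * v 1 + u 2 ^ 2 * v 2

/-- the surface -/
def surf (k : Type) [Field k] : Set (P2 k × P2 k) :=
  {p | valF p.1.rep p.2.rep = 0 ∧ valG p.1.rep p.2.rep = 0}

theorem mem_surf (u v : Fin 3 → k) (hu : u ≠ 0) (hv : v ≠ 0) :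
    point u v hu hv ∈ surf k ↔ valF u v = 0 ∧ valG u v = 0 := by
  obtain ⟨a, ha⟩ := Projectivization.exists_smul_eq_mk_rep k u hu
  obtain ⟨b, hb⟩ := Projectivization.exists_smul_eq_mk_rep k v hv
  have e1 : (point u v hu hv).1.rep = a • u := ha.symm
  have e2 : (point u v hu hv).2.rep = b • v := hb.symm
  have h1 : valF (a • u) (b • v) = (a * b ^ 2 : kˣ) * valF u v := by
    simp only [valF, Pi.smul_apply, Units.smul_def, smul_eq_mul]; push_cast; ring
  have h2 : valG (a • u) (b • v) = (a ^ 2 * b : kˣ) * valG u v := by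
    simp only [valG, Pi.smul_apply, Units.smul_def, smul_eq_mul]; push_cast; ring
  change valF (point u v hu hv).1.rep (point u v hu hv).2.rep = 0 ∧
    valG (point u v hu hv).1.rep (point u v hu hv).2.rep = 0 ↔ _
  rw [e1, e2, h1, h2]
  simp

/-- the first equation as a polynomial -/
noncomputable def polF (k : Type) [Field k] : R k :=
  valF (fun i => X (Sum.inl i)) (fun i => X (Sum.inr i))

/-- the second equation as a polynomial -/
noncomputable def polG (k : Type) [Field k] : R k :=
  valG (fun i => X (Sum.inl i)) (fun i => X (Sum.inr i))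

theorem value_polF (u v : Fin 3 → k) : value (polF k) u v = valF u v := by
  simp [value, polF, valF]

theorem value_polG (u v : Fin 3 → k) : value (polG k) u v = valG u v := by
  simp [value, polG, valG]

theorem polF_mem : polF k ∈ vanishing (surf k) := by
  intro u v hu hv h
  rw [value_polF]; exact ((mem_surf u v hu hv).1 h).1

theorem polG_mem : polG k ∈ vanishing (surf k) := by
  intro u v hu hv h
  rw [value_polG]; exact ((mem_surf u v hu hv).1 h).2

theorem isBihom_monomial (m : Fin 3 ⊕ Fin 3 →₀ ℕ) (c : k) (a b : ℕ)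
    (h : (∑ i : Fin 3, m (Sum.inl i) = a) ∧ (∑ i : Fin 3, m (Sum.inr i) = b)) :
    IsBihom (monomial m c) a b := by
  intro m' hm'
  have := MvPolynomial.support_monomial_subset hm'
  rw [Finset.mem_singleton] at this
  rw [this]; exact h

theorem IsBihom.add {F G : R k} {a b : ℕ} (hF : IsBihom F a b) (hG : IsBihom G a b) :
    IsBihom (F + G) a b := by
  intro m hm
  classical
  rcases Finset.mem_union.1 (MvPolynomial.support_add hm) with h | h
  · exact hF m h
  · exact hG m h

theorem IsBihom.mul {F G : R k} {a b a' b' : ℕ} (hF : IsBihom F a b) (hG : IsBihom G a' b') :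
    IsBihom (F * G) (a + a') (b + b') := by
  intro m hm
  classical
  obtain ⟨m₁, h₁, m₂, h₂, rfl⟩ := Finset.mem_add.1 (MvPolynomial.support_mul _ _ hm)
  obtain ⟨e1, e2⟩ := hF m₁ h₁
  obtain ⟨e3, e4⟩ := hG m₂ h₂
  simp only [Finsupp.add_apply, Finset.sum_add_distrib]
  exact ⟨by rw [e1, e3], by rw [e2, e4]⟩

theorem isBihom_x (i : Fin 3) : IsBihom (X (Sum.inl i) : R k) 1 0 := by
  apply isBihom_monomial
  constructor
  · simp [Finsupp.single_apply]
  · simp

theorem isBihom_y (i : Fin 3) : IsBihom (X (Sum.inr i) : R k) 0 1 := by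
  apply isBihom_monomial
  constructor
  · simp
  · simp [Finsupp.single_apply]

theorem isBihom_polF : IsBihom (polF k) 1 2 := by
  have h : ∀ i, IsBihom (X (Sum.inl i) * X (Sum.inr i) ^ 2 : R k) 1 2 := by
    intro i
    have := (isBihom_x (k := k) i).mul ((isBihom_y i).mul (isBihom_y i))
    rw [pow_two]; simpa using this
  exact ((h 0).add (h 1)).add (h 2)

theorem isBihom_polG : IsBihom (polG k) 2 1 := by
  have h : ∀ i, IsBihom (X (Sum.inl i) ^ 2 * X (Sum.inr i) : R k) 2 1 := by
    intro i
    have := ((isBihom_x (k := k) i).mul (isBihom_x i)).mul (isBihom_y i)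
    rw [pow_two]; simpa using this
  exact ((h 0).add (h 1)).add (h 2)


/-- fourth powers -/
def p4 {B : Type} [CommRing B] (a : Fin 3 → B) : Fin 3 → B := fun i => a i ^ 4

/-- The point of the surface attached to `ξ`. -/
theorem valF_param [CharP k 2] (a : Fin 3 → k) (s t : k) :
    valF (fun i => s * a i ^ 2) (fun i => t * cr a (p4 a) i) = 0 := by
  have h := dot_cr_left a (p4 a)
  have h2 := two_zero k
  simp only [dot] at h
  simp only [valF]
  set c := cr a (p4 a)
  linear_combination s * t ^ 2 * (a 0 * c 0 + a 1 * c 1 + a 2 * c 2) * h -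
    s * t ^ 2 * (a 0 * c 0 * a 1 * c 1 + a 0 * c 0 * a 2 * c 2 + a 1 * c 1 * a 2 * c 2) * h2

theorem valG_param (a : Fin 3 → k) (s t : k) :
    valG (fun i => s * a i ^ 2) (fun i => t * cr a (p4 a) i) = 0 := by
  have h := dot_cr_right a (p4 a)
  set c := cr a (p4 a) with hc
  simp only [dot, p4] at h
  simp only [valG]
  linear_combination s ^ 2 * t * h

/-- parametrization of the surface -/
noncomputable def phiX (k : Type) [Field k] : R k →ₐ[k] MvPolynomial (Fin 3 ⊕ Fin 2) k :=
  aeval (Sum.elim (fun i => X (Sum.inr 0) * X (Sum.inl i) ^ 2)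
    (fun i => X (Sum.inr 1) * cr (fun j => X (Sum.inl j)) (p4 (fun j => X (Sum.inl j))) i))

theorem map_cr {B C : Type} [CommRing B] [CommRing C] (f : B →+* C) (a b : Fin 3 → B) (i : Fin 3) :
    f (cr a b i) = cr (fun j => f (a j)) (fun j => f (b j)) i := by
  fin_cases i <;> simp [cr]

theorem eval_phiX (F : R k) (e : Fin 3 ⊕ Fin 2 → k) :
    MvPolynomial.eval e (phiX k F) =
      value F (fun i => e (Sum.inr 0) * e (Sum.inl i) ^ 2)
        (fun i => e (Sum.inr 1) * cr (fun j => e (Sum.inl j)) (p4 (fun j => e (Sum.inl j))) i) := by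
  have h : ((MvPolynomial.aeval e).comp (phiX k)) F = MvPolynomial.aeval (Sum.elim
      (fun i => e (Sum.inr 0) * e (Sum.inl i) ^ 2)
      (fun i => e (Sum.inr 1) * cr (fun j => e (Sum.inl j)) (p4 (fun j => e (Sum.inl j))) i)) F := by
    congr 1
    ext j
    rcases j with i | i
    · simp [phiX]
    · have h1 := map_cr (MvPolynomial.eval e) (fun j => X (Sum.inl j))
        (p4 (fun j => (X (Sum.inl j) : MvPolynomial (Fin 3 ⊕ Fin 2) k))) i
      have h2 : (fun j => (MvPolynomial.eval e)
          (p4 (fun j => (X (Sum.inl j) : MvPolynomial (Fin 3 ⊕ Fin 2) k)) j)) =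
          p4 (fun j => e (Sum.inl j)) := by
        funext j; simp [p4]
      rw [h2] at h1
      simp only [eval_X] at h1
      simp [phiX, h1]
  rw [value, ← MvPolynomial.coe_aeval_eq_eval, ← MvPolynomial.coe_aeval_eq_eval]
  exact h

theorem exists_ne_pow4 [IsAlgClosed k] : ∃ c : k, c ^ 4 ≠ c := by
  have : Infinite k := IsAlgClosed.instInfinite
  by_contra hcon
  push Not at hcon
  have h0 : (Polynomial.X ^ 4 - Polynomial.X : Polynomial k) = 0 := by
    apply Polynomial.funext
    intro r
    simp [hcon r]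
  have h1 := congrArg (fun p => Polynomial.coeff p 4) h0
  simp [Polynomial.coeff_X] at h1

theorem phiX_eq_zero_iff [IsAlgClosed k] [CharP k 2] (F : R k) :
    F ∈ vanishing (surf k) ↔ phiX k F = 0 := by
  have : Infinite k := IsAlgClosed.instInfinite
  constructor
  · intro hF
    have key : phiX k F * (X (Sum.inr 0) * X (Sum.inr 1) *
        cr (fun j => X (Sum.inl j)) (p4 (fun j => X (Sum.inl j))) 0) = 0 := by
      apply MvPolynomial.funext
      intro e
      rw [map_mul, map_zero]
      by_cases h0 : MvPolynomial.eval e (X (Sum.inr 0) * X (Sum.inr 1) *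
        cr (fun j => X (Sum.inl j)) (p4 (fun j => X (Sum.inl j))) 0) = 0
      · rw [h0, mul_zero]
      · rw [map_mul, map_mul, eval_X, eval_X, map_cr] at h0
        simp only [p4, map_pow, eval_X] at h0
        obtain ⟨h1, h2⟩ := mul_ne_zero_iff.1 h0
        obtain ⟨h3, h4⟩ := mul_ne_zero_iff.1 h1
        have hu : (fun i => e (Sum.inr 0) * e (Sum.inl i) ^ 2) ≠ (0 : Fin 3 → k) := by
          intro hz
          have hz' : ∀ i : Fin 3, e (Sum.inl i) = 0 := by
            intro i
            have := congrFun hz i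
            simpa [h3] using this
          apply h2
          simp [cr, hz']
        have hv : (fun i => e (Sum.inr 1) * cr (fun j => e (Sum.inl j))
            (p4 (fun j => e (Sum.inl j))) i) ≠ (0 : Fin 3 → k) := by
          intro hz
          have := congrFun hz 0
          simp only [Pi.zero_apply, mul_eq_zero] at this
          rcases this with h | h
          · exact h4 h
          · exact h2 h
        rw [eval_phiX, hF _ _ hu hv ((mem_surf _ _ hu hv).2 ⟨valF_param _ _ _, valG_param _ _ _⟩),
          zero_mul]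
    rcases mul_eq_zero.1 key with h | h
    · exact h
    · exfalso
      obtain ⟨c, hc⟩ := exists_ne_pow4 (k := k)
      have := congrArg (MvPolynomial.eval (Sum.elim ![0, 1, c] ![1, 1])) h
      rw [map_mul, map_mul, eval_X, eval_X, map_cr, map_zero] at this
      simp [cr, p4] at this
      apply hc
      linear_combination this
  · intro hF u v hu hv hpt
    obtain ⟨h1, h2⟩ := (mem_surf u v hu hv).1 hpt
    obtain ⟨a, ha⟩ := exists_sqrt u
    have h20 := two_zero k
    have ha0 : a ≠ 0 := by
      rintro rfl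
      apply hu; funext i; rw [← ha i]; simp
    have o1 : dot a v = 0 := by
      have : dot a v ^ 2 = 0 := by
        simp only [dot]
        simp only [valF, ← ha] at h1
        linear_combination h1 + (a 0 * v 0 * a 1 * v 1 + a 0 * v 0 * a 2 * v 2 +
          a 1 * v 1 * a 2 * v 2) * h20
      exact pow_eq_zero_iff (by norm_num) |>.1 this
    have o2 : dot (p4 a) v = 0 := by
      simp only [dot, p4]
      simp only [valG, ← ha] at h2
      linear_combination h2
    have hp40 : p4 a ≠ 0 := by
      intro h; apply ha0; funext i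
      have := congrFun h i
      simp only [p4, Pi.zero_apply] at this
      exact pow_eq_zero_iff (by norm_num) |>.1 this
    by_cases hcr : cr a (p4 a) = 0
    · obtain ⟨n, hn⟩ := cr_surj (p4 a) v hp40 o2
      -- the arc `a + τ n`
      let q : Polynomial k := aeval (Sum.elim
        (fun i => (Polynomial.C (a i) + Polynomial.X * Polynomial.C (n i)) ^ 2)
        (fun i => Polynomial.C (v i) + Polynomial.X ^ 3 * Polynomial.C (cr a (p4 n) i) +
          Polynomial.X ^ 4 * Polynomial.C (cr n (p4 n) i))) F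
      have hq : ∀ τ : k, q.eval τ = value F (fun i => (a i + τ * n i) ^ 2)
          (fun i => v i + τ ^ 3 * cr a (p4 n) i + τ ^ 4 * cr n (p4 n) i) := by
        intro τ
        have h : ((Polynomial.aeval τ).comp (aeval (Sum.elim
          (fun i => (Polynomial.C (a i) + Polynomial.X * Polynomial.C (n i)) ^ 2)
          (fun i => Polynomial.C (v i) + Polynomial.X ^ 3 * Polynomial.C (cr a (p4 n) i) +
          Polynomial.X ^ 4 * Polynomial.C (cr n (p4 n) i))))) F = MvPolynomial.aeval (Sum.elim
            (fun i => (a i + τ * n i) ^ 2)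
            (fun i => v i + τ ^ 3 * cr a (p4 n) i + τ ^ 4 * cr n (p4 n) i)) F := by
          congr 1
          ext j
          rcases j with i | i <;> simp <;> ring
        rw [value, ← MvPolynomial.coe_aeval_eq_eval]
        rw [← Polynomial.coe_aeval_eq_eval]
        exact h
      have hq0 : ∀ τ : k, τ ≠ 0 → q.eval τ = 0 := by
        intro τ hτ
        rw [hq]
        have h3 := eval_phiX F (Sum.elim (fun i => a i + τ * n i) ![1, τ⁻¹])
        rw [hF, map_zero] at h3
        rw [h3]
        congr 1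
        · funext i; simp
        · funext i
          have e1 : cr (fun j => a j + τ * n j) (p4 (fun j => a j + τ * n j)) i =
              cr a (p4 a) i + τ * (cr n (p4 a) i + τ ^ 3 * cr a (p4 n) i
                + τ ^ 4 * cr n (p4 n) i) := by
            have e4 : ∀ b c : k, (b + τ * c) ^ 4 = b ^ 4 + τ ^ 4 * c ^ 4 := by
              intro b c
              linear_combination (2 * b ^ 3 * τ * c + 3 * b ^ 2 * τ ^ 2 * c ^ 2 +
                2 * b * τ ^ 3 * c ^ 3) * h20
            fin_cases i <;> simp [cr, p4, e4] <;> ring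
          simp only [Sum.elim_inr, Sum.elim_inl, Matrix.cons_val_one]
          rw [e1, hcr, hn]
          simp only [Pi.zero_apply, zero_add, Matrix.cons_val_fin_one]
          field_simp
      have hqz : q * Polynomial.X = 0 := by
        apply Polynomial.funext
        intro τ
        by_cases hτ : τ = 0
        · simp [hτ]
        · simp [hq0 τ hτ]
      have hqz' : q = 0 := by
        rcases mul_eq_zero.1 hqz with h | h
        · exact h
        · exact absurd h Polynomial.X_ne_zero
      have h4 := hq 0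
      rw [hqz', Polynomial.eval_zero] at h4
      rw [h4]
      congr 1
      · funext i; simp [ha]
      · funext i; simp
    · obtain ⟨t, ht⟩ := par_cr a (p4 a) v hcr o1 o2
      have h3 := eval_phiX F (Sum.elim a ![1, t])
      rw [hF, map_zero] at h3
      rw [h3]
      congr 1
      · funext i; simp [ha]
      · funext i; simp [ht]

end GonX

section GonY

variable {k : Type} [Field k]

theorem vanishing_surf [IsAlgClosed k] [CharP k 2] :
    vanishing (surf k) = RingHom.ker (phiX k) := by
  ext F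
  rw [RingHom.mem_ker]
  exact phiX_eq_zero_iff F

/-- The surface as a variety. -/
noncomputable def surface (k : Type) [Field k] [IsAlgClosed k] [CharP k 2] : Variety k where
  carrier := surf k
  closed := by
    intro u v hu hv h
    rw [mem_surf]
    constructor
    · have := h 1 2 (polF k) isBihom_polF polF_mem
      rwa [value_polF] at this
    · have := h 2 1 (polG k) isBihom_polG polG_mem
      rwa [value_polG] at this
  prime := by
    rw [vanishing_surf]
    exact RingHom.ker_isPrime _

theorem ratio_mem (V : Variety k) {a b : ℕ} {F G : R k} (hF : IsBihom F a b) (hG : IsBihom G a b)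
    (hGn : G ∉ vanishing V.carrier) : V.cl F / V.cl G ∈ V.functionField :=
  IntermediateField.subset_adjoin _ _ ⟨a, b, F, G, hF, hG, hGn, rfl⟩

/-- Generators of the function field in terms of affine coordinates. -/
theorem adjoin_eq_top (V : Variety k) (hx : (X (Sum.inl 0) : R k) ∉ vanishing V.carrier)
    (hy : (X (Sum.inr 0) : R k) ∉ vanishing V.carrier)
    (U₁ U₂ V₁ V₂ : V.functionField)
    (e1 : (U₁ : V.Frac) = V.cl (X (Sum.inl 1)) / V.cl (X (Sum.inl 0)))
    (e2 : (U₂ : V.Frac) = V.cl (X (Sum.inl 2)) / V.cl (X (Sum.inl 0)))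
    (e3 : (V₁ : V.Frac) = V.cl (X (Sum.inr 1)) / V.cl (X (Sum.inr 0)))
    (e4 : (V₂ : V.Frac) = V.cl (X (Sum.inr 2)) / V.cl (X (Sum.inr 0))) :
    IntermediateField.adjoin k {U₁, U₂, V₁, V₂} = ⊤ := by
  have hx' : V.cl (X (Sum.inl 0)) ≠ 0 := fun h => hx ((cl_eq_zero V _).1 h)
  have hy' : V.cl (X (Sum.inr 0)) ≠ 0 := fun h => hy ((cl_eq_zero V _).1 h)
  set E := IntermediateField.adjoin k {U₁, U₂, V₁, V₂} with hE
  have m1 : U₁ ∈ E := IntermediateField.subset_adjoin _ _ (by simp)
  have m2 : U₂ ∈ E := IntermediateField.subset_adjoin _ _ (by simp)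
  have m3 : V₁ ∈ E := IntermediateField.subset_adjoin _ _ (by simp)
  have m4 : V₂ ∈ E := IntermediateField.subset_adjoin _ _ (by simp)
  have n1 : (U₁ : V.Frac) ∈ IntermediateField.lift E := (IntermediateField.mem_lift U₁).2 m1
  have n2 : (U₂ : V.Frac) ∈ IntermediateField.lift E := (IntermediateField.mem_lift U₂).2 m2
  have n3 : (V₁ : V.Frac) ∈ IntermediateField.lift E := (IntermediateField.mem_lift V₁).2 m3
  have n4 : (V₂ : V.Frac) ∈ IntermediateField.lift E := (IntermediateField.mem_lift V₂).2 m4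
  have hle : V.functionField ≤ IntermediateField.lift E := by
    apply functionField_le V (IntermediateField.lift E) (V.cl (X (Sum.inl 0)))
      (V.cl (X (Sum.inr 0))) ![1, U₁, U₂] ![1, V₁, V₂]
    · intro i
      fin_cases i
      · exact one_mem _
      · exact n1
      · exact n2
    · intro i
      fin_cases i
      · exact one_mem _
      · exact n3
      · exact n4
    · intro i
      fin_cases i
      · simp
      · simp [e1]; field_simp
      · simp [e2]; field_simp
    · intro i
      fin_cases i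
      · simp
      · simp [e3]; field_simp
      · simp [e4]; field_simp
  rw [eq_top_iff]
  intro z _
  exact (IntermediateField.mem_lift z).1 (hle z.2)

theorem exists_perp (a b : Fin 3 → k) (ha : a ≠ 0) :
    ∃ v : Fin 3 → k, v ≠ 0 ∧ dot a v = 0 ∧ dot b v = 0 := by
  by_cases h : cr a b = 0
  · obtain ⟨i, hi⟩ := Function.ne_iff.1 ha
    simp only [Pi.zero_apply] at hi
    have h0 := congrFun h 0
    have h1 := congrFun h 1
    have h2 := congrFun h 2
    simp only [cr, Matrix.cons_val_zero, Matrix.cons_val_one, Matrix.cons_val, Pi.zero_apply]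
      at h0 h1 h2
    fin_cases i
    · refine ⟨![-a 1, a 0, 0], fun h => hi (congrFun h 1), ?_, ?_⟩
      · simp [dot]; ring
      · simp [dot]; linear_combination h2
    · refine ⟨![-a 1, a 0, 0], fun h => hi (neg_eq_zero.1 (congrFun h 0)), ?_, ?_⟩
      · simp [dot]; ring
      · simp [dot]; linear_combination h2
    · refine ⟨![0, -a 2, a 1], fun h => hi (neg_eq_zero.1 (congrFun h 1)), ?_, ?_⟩
      · simp [dot]; ring
      · simp [dot]; linear_combination h0
  · exact ⟨cr a b, h, dot_cr_left a b, dot_cr_right a b⟩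

section
variable [IsAlgClosed k] [CharP k 2]

/-- over every point `[u]` of the plane there is a point of the surface. -/
theorem exists_above (u : Fin 3 → k) (hu : u ≠ 0) :
    ∃ (v : Fin 3 → k) (hv : v ≠ 0), point u v hu hv ∈ surf k := by
  obtain ⟨a, ha⟩ := exists_sqrt u
  have ha0 : a ≠ 0 := by
    rintro rfl
    apply hu; funext i; rw [← ha i]; simp
  obtain ⟨v, hv, o1, o2⟩ := exists_perp a (p4 a) ha0
  refine ⟨v, hv, (mem_surf u v hu hv).2 ⟨?_, ?_⟩⟩
  · have h20 := two_zero k
    simp only [dot] at o1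
    simp only [valF, ← ha]
    linear_combination (a 0 * v 0 + a 1 * v 1 + a 2 * v 2) * o1 -
      (a 0 * v 0 * a 1 * v 1 + a 0 * v 0 * a 2 * v 2 + a 1 * v 1 * a 2 * v 2) * h20
  · simp only [dot, p4] at o2
    simp only [valG, ← ha]
    linear_combination o2

theorem x0_not_mem : (X (Sum.inl 0) : R k) ∉ vanishing (surf k) := by
  intro h
  have hu : (![1, 0, 0] : Fin 3 → k) ≠ 0 := fun h => one_ne_zero (congrFun h 0)
  obtain ⟨v, hv, hpt⟩ := exists_above _ hu
  have := h _ _ hu hv hpt
  simp [value] at this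

theorem y0_not_mem : (X (Sum.inr 0) : R k) ∉ vanishing (surf k) := by
  intro h
  have hu : (![0, 1, 0] : Fin 3 → k) ≠ 0 := fun h => one_ne_zero (congrFun h 1)
  have hv : (![1, 0, 0] : Fin 3 → k) ≠ 0 := fun h => one_ne_zero (congrFun h 0)
  have := h _ _ hu hv ((mem_surf _ _ hu hv).2 ⟨by simp [valF], by simp [valG]⟩)
  simp [value] at this

/-- the first projection in affine coordinates: the functions `x₁/x₀`, `x₂/x₀`. -/
noncomputable def proj (k : Type) [Field k] [IsAlgClosed k] [CharP k 2] :
    Fin 2 → (surface k).functionField := fun i =>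
  ⟨(surface k).cl (X (Sum.inl i.succ)) / (surface k).cl (X (Sum.inl 0)),
    ratio_mem (surface k) (isBihom_x _) (isBihom_x 0) x0_not_mem⟩

/-- the functions `y₁/y₀`, `y₂/y₀`. -/
noncomputable def yfun (k : Type) [Field k] [IsAlgClosed k] [CharP k 2] :
    Fin 2 → (surface k).functionField := fun i =>
  ⟨(surface k).cl (X (Sum.inr i.succ)) / (surface k).cl (X (Sum.inr 0)),
    ratio_mem (surface k) (isBihom_y _) (isBihom_y 0) y0_not_mem⟩

theorem proj_eq : proj k = ![proj k 0, proj k 1] := by
  funext i; fin_cases i <;> rfl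

theorem cl_ne_zero (V : Variety k) {F : R k} (h : F ∉ vanishing V.carrier) : V.cl F ≠ 0 :=
  fun h' => h ((cl_eq_zero V F).1 h')

theorem rel1 : 1 + proj k 0 * yfun k 0 ^ 2 + proj k 1 * yfun k 1 ^ 2 = 0 := by
  have hx := cl_ne_zero (surface k) (x0_not_mem (k := k))
  have hy := cl_ne_zero (surface k) (y0_not_mem (k := k))
  apply Subtype.ext
  have h := (cl_eq_zero (surface k) (polF k)).2 polF_mem
  rw [← clHom_apply] at h
  simp only [polF, valF, map_add, map_mul, map_pow, clHom_apply] at h
  push_cast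
  simp only [proj, yfun]
  have e1 : (Fin.succ 0 : Fin 3) = 1 := rfl
  have e2 : (Fin.succ 1 : Fin 3) = 2 := rfl
  rw [e1, e2]
  field_simp
  linear_combination h

theorem rel2 : 1 + yfun k 0 * proj k 0 ^ 2 + yfun k 1 * proj k 1 ^ 2 = 0 := by
  have hx := cl_ne_zero (surface k) (x0_not_mem (k := k))
  have hy := cl_ne_zero (surface k) (y0_not_mem (k := k))
  apply Subtype.ext
  have h := (cl_eq_zero (surface k) (polG k)).2 polG_mem
  rw [← clHom_apply] at h
  simp only [polG, valG, map_add, map_mul, map_pow, clHom_apply] at h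
  push_cast
  simp only [proj, yfun]
  have e1 : (Fin.succ 0 : Fin 3) = 1 := rfl
  have e2 : (Fin.succ 1 : Fin 3) = 2 := rfl
  rw [e1, e2]
  field_simp
  linear_combination h

theorem gens_top : IntermediateField.adjoin k {proj k 0, proj k 1, yfun k 0, yfun k 1} = ⊤ :=
  adjoin_eq_top (surface k) x0_not_mem y0_not_mem _ _ _ _ rfl rfl rfl rfl

theorem proj_independent : AlgebraicIndependent k (proj k) := by
  have : Infinite k := IsAlgClosed.instInfinite
  rw [algebraicIndependent_iff]
  intro P hP
  have hP' : aeval (fun i : Fin 2 => (surface k).cl (X (Sum.inl i.succ)) /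
      (surface k).cl (X (Sum.inl 0))) P = 0 := by
    have h1 := congrArg (surface k).functionField.val hP
    rw [map_zero, MvPolynomial.comp_aeval_apply] at h1
    exact h1
  apply MvPolynomial.funext
  intro c
  rw [map_zero]
  have hu : (![1, c 0, c 1] : Fin 3 → k) ≠ 0 := fun h => one_ne_zero (congrFun h 0)
  obtain ⟨v, hv, hpt⟩ := exists_above _ hu
  have h2 := transfer (surface k) (X (Sum.inl 0)) (fun i : Fin 2 => X (Sum.inl i.succ)) P
    (cl_ne_zero (surface k) x0_not_mem) hP' _ v hu hv hpt (by simp [value])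
  have h3 : (fun i : Fin 2 => value (X (Sum.inl i.succ) : R k) ![1, c 0, c 1] v /
      value (X (Sum.inl 0) : R k) ![1, c 0, c 1] v) = c := by
    funext i
    fin_cases i <;> simp [value]
  rwa [h3] at h2

theorem degree_proj : (surface k).degree (proj k) = 2 := by
  rw [Variety.degree, proj_eq]
  apply finrank_facts (k := k) (proj k 0) (proj k 1) (yfun k 0) (yfun k 1) rel1 rel2 gens_top
  rw [← proj_eq]
  exact proj_independent

theorem proj_basis : IsTranscendenceBasis k (proj k) :=
  transBasis_of_finite (proj k) proj_independent (by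
    have := degree_proj (k := k)
    rw [Variety.degree] at this
    rw [this]; norm_num)

theorem dim_surface : (surface k).dim = 2 := trdeg_eq_two (proj k) proj_basis

theorem min_degree (w : Fin 2 → (surface k).functionField) (hw : (surface k).IsDominant w) :
    2 ≤ (surface k).degree w :=
  two_le_degree (proj k 0) (proj k 1) (yfun k 0) (yfun k 1) rel1 rel2 gens_top
    (by rw [← proj_eq]; exact proj_basis) w hw

theorem dimension_surface : (surface k).dimension = 2 := dim_surface

/-- smoothness -/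
theorem smooth_surface : (surface k).Smooth := by
  intro u v hu hv hpt
  rw [dimension_surface]
  have h20 := two_zero k
  -- the two differentials
  let L : (Fin 3 ⊕ Fin 3 → k) →ₗ[k] (Fin 2 → k) :=
    { toFun := fun w => ![v 0 ^ 2 * w (Sum.inl 0) + v 1 ^ 2 * w (Sum.inl 1) + v 2 ^ 2 * w (Sum.inl 2),
        u 0 ^ 2 * w (Sum.inr 0) + u 1 ^ 2 * w (Sum.inr 1) + u 2 ^ 2 * w (Sum.inr 2)]
      map_add' := by
        intro a b
        funext i
        fin_cases i <;> simp <;> ring
      map_smul' := by
        intro c a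
        funext i
        fin_cases i <;> simp <;> ring }
  have hsurj : Function.Surjective L := by
    intro c
    obtain ⟨i, hi⟩ := Function.ne_iff.1 hu
    obtain ⟨j, hj⟩ := Function.ne_iff.1 hv
    simp only [Pi.zero_apply] at hi hj
    refine ⟨Sum.elim (Pi.single j (c 0 / v j ^ 2)) (Pi.single i (c 1 / u i ^ 2)), ?_⟩
    funext l
    fin_cases l
    · change v 0 ^ 2 * _ + v 1 ^ 2 * _ + v 2 ^ 2 * _ = c 0
      fin_cases j <;> simp [Pi.single_apply] at hj ⊢ <;> field_simp
    · change u 0 ^ 2 * _ + u 1 ^ 2 * _ + u 2 ^ 2 * _ = c 1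
      fin_cases i <;> simp [Pi.single_apply] at hi ⊢ <;> field_simp
  have hker : Module.finrank k (LinearMap.ker L) = 4 := by
    have h1 := LinearMap.finrank_range_add_finrank_ker L
    rw [LinearMap.range_eq_top.2 hsurj, finrank_top] at h1
    simp at h1
    omega
  have hle : (surface k).tangent u v ≤ LinearMap.ker L := by
    intro w hw
    rw [LinearMap.mem_ker]
    have e1 : Variety.diff (polF k) u v w = 0 := hw (polF k) polF_mem
    have e2 : Variety.diff (polG k) u v w = 0 := hw (polG k) polG_mem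
    funext i
    fin_cases i
    · change v 0 ^ 2 * w (Sum.inl 0) + v 1 ^ 2 * w (Sum.inl 1) + v 2 ^ 2 * w (Sum.inl 2) = 0
      simp only [Variety.diff, Fintype.sum_sum_type, Fin.sum_univ_three, polF, valF, value, map_add,
        Derivation.leibniz, Derivation.leibniz_pow, pderiv_X, smul_eq_mul, nsmul_eq_mul, map_mul,
        map_pow, eval_X, Sum.elim_inl, Sum.elim_inr, Pi.single_apply] at e1
      simp at e1
      linear_combination e1 - (u 0 * v 0 * w (Sum.inr 0) + u 1 * v 1 * w (Sum.inr 1) +
        u 2 * v 2 * w (Sum.inr 2)) * h20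
    · change u 0 ^ 2 * w (Sum.inr 0) + u 1 ^ 2 * w (Sum.inr 1) + u 2 ^ 2 * w (Sum.inr 2) = 0
      simp only [Variety.diff, Fintype.sum_sum_type, Fin.sum_univ_three, polG, valG, value, map_add,
        Derivation.leibniz, Derivation.leibniz_pow, pderiv_X, smul_eq_mul, nsmul_eq_mul, map_mul,
        map_pow, eval_X, Sum.elim_inl, Sum.elim_inr, Pi.single_apply] at e2
      simp at e2
      linear_combination e2 - (u 0 * v 0 * w (Sum.inl 0) + u 1 * v 1 * w (Sum.inl 1) +
        u 2 * v 2 * w (Sum.inl 2)) * h20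
  calc Module.finrank k ((surface k).tangent u v) ≤ Module.finrank k (LinearMap.ker L) :=
        Submodule.finrank_mono hle
    _ = 4 := hker
    _ ≤ 2 + 2 := le_refl _

end

end GonY

section GonC

variable {k : Type} [Field k]

/-- The Moore determinant of the rows `a, a⁴, a¹⁶`. -/
def moore {B : Type} [CommRing B] (a : Fin 3 → B) : B := dot a (cr (p4 a) (p4 (p4 a)))

theorem det_kill (a b c u : Fin 3 → k) (hu : u ≠ 0) (h1 : dot a u = 0) (h2 : dot b u = 0)
    (h3 : dot c u = 0) : dot a (cr b c) = 0 := by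
  obtain ⟨i, hi⟩ := Function.ne_iff.1 hu
  simp only [Pi.zero_apply] at hi
  have : u i * dot a (cr b c) = 0 := by
    simp only [dot] at h1 h2 h3
    simp only [dot, cr, Matrix.cons_val_zero, Matrix.cons_val_one, Matrix.cons_val]
    fin_cases i
    · simp only [Fin.zero_eta]
      linear_combination (b 1 * c 2 - b 2 * c 1) * h1 + (c 1 * a 2 - c 2 * a 1) * h2 +
        (a 1 * b 2 - a 2 * b 1) * h3
    · simp only [Fin.mk_one]
      linear_combination (b 2 * c 0 - b 0 * c 2) * h1 + (c 2 * a 0 - c 0 * a 2) * h2 +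
        (a 2 * b 0 - a 0 * b 2) * h3
    · simp only [Fin.reduceFinMk]
      linear_combination (b 0 * c 1 - b 1 * c 0) * h1 + (c 0 * a 1 - c 1 * a 0) * h2 +
        (a 0 * b 1 - a 1 * b 0) * h3
  exact (mul_eq_zero.1 this).resolve_left hi

theorem add_pow4 {B : Type} [CommRing B] (h20 : (2 : B) = 0) (x y : B) :
    (x + y) ^ 4 = x ^ 4 + y ^ 4 := by
  linear_combination (2 * x ^ 3 * y + 3 * x ^ 2 * y ^ 2 + 2 * x * y ^ 3) * h20

theorem dot_p4 {B : Type} [CommRing B] (h20 : (2 : B) = 0) (a u : Fin 3 → B) :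
    dot (p4 a) (p4 u) = dot a u ^ 4 := by
  simp only [dot, add_pow4 h20, p4, mul_pow]

/-- Nondegeneracy. -/
theorem nondeg [CharP k 2] (a x : Fin 3 → k) (hG : moore a ≠ 0) (hx : x ≠ 0)
    (h : dot a (fun i => x i ^ 2) = 0) : cr x (p4 x) ≠ 0 := by
  intro hcr
  have h20 := two_zero k
  obtain ⟨i, hi⟩ := Function.ne_iff.1 hx
  simp only [Pi.zero_apply] at hi
  have h0 := congrFun hcr 0
  have h1 := congrFun hcr 1
  have h2 := congrFun hcr 2
  simp only [cr, p4, Matrix.cons_val_zero, Matrix.cons_val_one, Matrix.cons_val, Pi.zero_apply]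
    at h0 h1 h2
  -- `x⁴ = c x` with `c = xᵢ³`
  have hc : ∀ j, x j ^ 4 = x i ^ 3 * x j := by
    intro j
    have h3 : x i * x j ^ 4 = x i * (x i ^ 3 * x j) := by
      fin_cases i <;> fin_cases j <;> simp only [Fin.zero_eta, Fin.mk_one, Fin.reduceFinMk] <;>
        first
        | ring1
        | linear_combination h0
        | linear_combination -h0
        | linear_combination h1
        | linear_combination -h1
        | linear_combination h2
        | linear_combination -h2
    exact mul_left_cancel₀ hi h3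
  have hu : (fun i => x i ^ 2) ≠ (0 : Fin 3 → k) := by
    intro h
    have := congrFun h i
    simp [hi] at this
  have hci : x i ^ 3 ≠ 0 := pow_ne_zero _ hi
  have e1 : dot (p4 a) (fun i => x i ^ 2) = 0 := by
    have h3 := dot_p4 h20 a (fun i => x i ^ 2)
    rw [h, zero_pow (by norm_num)] at h3
    have h4 : dot (p4 a) (p4 (fun i => x i ^ 2)) =
        (x i ^ 3) ^ 2 * dot (p4 a) (fun i => x i ^ 2) := by
      have h5 : ∀ j, (x j ^ 2) ^ 4 = (x i ^ 3) ^ 2 * x j ^ 2 := by
        intro j
        rw [← mul_pow, ← hc j]; ring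
      simp only [dot, p4, h5]; ring
    rw [h4] at h3
    exact (mul_eq_zero.1 h3).resolve_left (pow_ne_zero _ hci)
  have e2 : dot (p4 (p4 a)) (fun i => x i ^ 2) = 0 := by
    have h3 := dot_p4 h20 (p4 a) (p4 (fun i => x i ^ 2))
    rw [dot_p4 h20 a (fun i => x i ^ 2), h, zero_pow (by norm_num), zero_pow (by norm_num)] at h3
    have h4 : dot (p4 (p4 a)) (p4 (p4 (fun i => x i ^ 2))) =
        (x i ^ 3) ^ 10 * dot (p4 (p4 a)) (fun i => x i ^ 2) := by
      have h5 : ∀ j, ((x j ^ 2) ^ 4) ^ 4 = (x i ^ 3) ^ 10 * x j ^ 2 := by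
        intro j
        calc ((x j ^ 2) ^ 4) ^ 4 = ((x j ^ 4) ^ 4) ^ 2 := by ring
          _ = ((x i ^ 3 * x j) ^ 4) ^ 2 := by rw [hc j]
          _ = (x i ^ 3) ^ 8 * (x j ^ 4) ^ 2 := by ring
          _ = (x i ^ 3) ^ 10 * x j ^ 2 := by rw [hc j]; ring
      simp only [dot, p4, h5]
      ring
    rw [h4] at h3
    exact (mul_eq_zero.1 h3).resolve_left (pow_ne_zero _ hci)
  exact hG (det_kill a (p4 a) (p4 (p4 a)) _ hu h e1 e2)

/-- parametrization of a line -/
def xi {B : Type} [CommRing B] (b c s t : B) : Fin 3 → B := ![b * s + c * t, s, t]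

/-- the equation of the line -/
def av {B : Type} [CommRing B] (b c : B) : Fin 3 → B := ![-1, b, c]

theorem dot_av_xi {B : Type} [CommRing B] (b c s t : B) : dot (av b c) (xi b c s t) = 0 := by
  simp [dot, av, xi]

theorem cr_cr {B : Type} [CommRing B] (A x y : Fin 3 → B) (h : dot A x = 0) (i : Fin 3) :
    cr A (cr x y) i = dot A y * x i := by
  simp only [dot] at h
  fin_cases i
  · simp [cr, dot]; linear_combination (-y 0) * h
  · simp [cr, dot]; linear_combination (-y 1) * h
  · simp [cr, dot]; linear_combination (-y 2) * h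

/-- the curve over the line `a · x = 0` -/
def crv (a : Fin 3 → k) : Set (P2 k × P2 k) := {p | p ∈ surf k ∧ dot a p.1.rep = 0}

theorem mem_crv (a u v : Fin 3 → k) (hu : u ≠ 0) (hv : v ≠ 0) :
    point u v hu hv ∈ crv a ↔ (point u v hu hv ∈ surf k ∧ dot a u = 0) := by
  obtain ⟨c, hc⟩ := Projectivization.exists_smul_eq_mk_rep k u hu
  have e1 : (point u v hu hv).1.rep = c • u := hc.symm
  change point u v hu hv ∈ surf k ∧ dot a (point u v hu hv).1.rep = 0 ↔ _
  rw [e1]
  have h1 : dot a (c • u) = (c : k) * dot a u := by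
    simp only [dot, Pi.smul_apply, Units.smul_def, smul_eq_mul]; ring
  rw [h1]
  simp

/-- the linear form as a polynomial -/
noncomputable def linA (a : Fin 3 → k) : R k := dot (fun i => C (a i)) (fun i => X (Sum.inl i))

theorem value_linA (a u v : Fin 3 → k) : value (linA a) u v = dot a u := by
  simp [value, linA, dot]

theorem isBihom_linA (a : Fin 3 → k) : IsBihom (linA a) 1 0 := by
  have h : ∀ i, IsBihom (C (a i) * X (Sum.inl i) : R k) 1 0 := by
    intro i
    rw [C_mul_X_eq_monomial]
    apply isBihom_monomial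
    constructor
    · simp [Finsupp.single_apply]
    · simp
  exact ((h 0).add (h 1)).add (h 2)

/-- generic point of the line -/
noncomputable def xiP (b c : k) : Fin 3 → MvPolynomial (Fin 4) k := xi (C b) (C c) (X 0) (X 1)

theorem eval_xiP (b c : k) (e : Fin 4 → k) (i : Fin 3) :
    MvPolynomial.eval e (xiP b c i) = xi b c (e 0) (e 1) i := by
  fin_cases i <;> simp [xiP, xi]

theorem eval_crxi (b c : k) (e : Fin 4 → k) (i : Fin 3) :
    MvPolynomial.eval e (cr (xiP b c) (p4 (xiP b c)) i) =
      cr (xi b c (e 0) (e 1)) (p4 (xi b c (e 0) (e 1))) i := by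
  rw [map_cr]
  congr 1
  · funext j; exact eval_xiP b c e j
  · funext j; simp only [p4, map_pow]; rw [eval_xiP]

/-- parametrization of the curve -/
noncomputable def phiC (b c : k) : R k →ₐ[k] MvPolynomial (Fin 4) k :=
  aeval (Sum.elim (fun i => X 2 * xiP b c i ^ 2)
    (fun i => X 3 * cr (xiP b c) (p4 (xiP b c)) i))

theorem eval_phiC (b c : k) (F : R k) (e : Fin 4 → k) :
    MvPolynomial.eval e (phiC b c F) =
      value F (fun i => e 2 * xi b c (e 0) (e 1) i ^ 2)
        (fun i => e 3 * cr (xi b c (e 0) (e 1)) (p4 (xi b c (e 0) (e 1))) i) := by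
  have h : ((MvPolynomial.aeval e).comp (phiC b c)) F = MvPolynomial.aeval (Sum.elim
      (fun i => e 2 * xi b c (e 0) (e 1) i ^ 2)
      (fun i => e 3 * cr (xi b c (e 0) (e 1)) (p4 (xi b c (e 0) (e 1))) i)) F := by
    congr 1
    ext j
    rcases j with i | i
    · have h1 := eval_xiP b c e i
      simp [phiC, h1]
    · have h1 := eval_crxi b c e i
      simp [phiC, h1]
  rw [value, ← MvPolynomial.coe_aeval_eq_eval, ← MvPolynomial.coe_aeval_eq_eval]
  exact h

section
variable [IsAlgClosed k] [CharP k 2]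

theorem phiC_eq_zero_iff (a : Fin 3 → k) (r b c : k) (hr : r ≠ 0)
    (ha : ∀ i, a i = r * av (b ^ 2) (c ^ 2) i) (hG : moore a ≠ 0) (F : R k) :
    F ∈ vanishing (crv a) ↔ phiC b c F = 0 := by
  have : Infinite k := IsAlgClosed.instInfinite
  have h20 := two_zero k
  have hdot : ∀ x : Fin 3 → k, dot a (fun i => x i ^ 2) = r * dot (av b c) x ^ 2 := by
    intro x
    simp only [dot, ha]
    simp [av]
    linear_combination r * (x 0 * b * x 1 + x 0 * c * x 2 - b * x 1 * c * x 2 - x 0 ^ 2) * h20
  constructor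
  · intro hF
    have key : phiC b c F * (X 2 * X 3 * X 1) = 0 := by
      apply MvPolynomial.funext
      intro e
      rw [map_mul, map_zero]
      by_cases h0 : MvPolynomial.eval e (X 2 * X 3 * X 1 : MvPolynomial (Fin 4) k) = 0
      · rw [h0, mul_zero]
      · rw [map_mul, map_mul, eval_X, eval_X, eval_X] at h0
        obtain ⟨h1, h2⟩ := mul_ne_zero_iff.1 h0
        obtain ⟨h3, h4⟩ := mul_ne_zero_iff.1 h1
        have hx : xi b c (e 0) (e 1) ≠ 0 := by
          intro hz
          exact h2 (congrFun hz 2)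
        have hd : dot a (fun i => xi b c (e 0) (e 1) i ^ 2) = 0 := by
          rw [hdot, dot_av_xi]; ring
        have hcr := nondeg a _ hG hx hd
        have hu : (fun i => e 2 * xi b c (e 0) (e 1) i ^ 2) ≠ (0 : Fin 3 → k) := by
          intro hz
          apply hx
          funext i
          have := congrFun hz i
          simpa [h3] using this
        have hv : (fun i => e 3 * cr (xi b c (e 0) (e 1)) (p4 (xi b c (e 0) (e 1))) i) ≠
            (0 : Fin 3 → k) := by
          intro hz
          apply hcr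
          funext i
          have := congrFun hz i
          simpa [h4] using this
        rw [eval_phiC, hF _ _ hu hv ((mem_crv _ _ _ hu hv).2 ⟨(mem_surf _ _ hu hv).2
          ⟨valF_param _ _ _, valG_param _ _ _⟩, ?_⟩), zero_mul]
        have : dot a (fun i => e 2 * xi b c (e 0) (e 1) i ^ 2) =
            e 2 * dot a (fun i => xi b c (e 0) (e 1) i ^ 2) := by
          simp only [dot]; ring
        rw [this, hd, mul_zero]
    rcases mul_eq_zero.1 key with h | h
    · exact h
    · exfalso
      have := congrArg (MvPolynomial.eval (fun _ => (1 : k))) h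
      simp at this
  · intro hF u v hu hv hpt
    obtain ⟨h0, hl⟩ := (mem_crv _ _ _ hu hv).1 hpt
    obtain ⟨h1, h2⟩ := (mem_surf u v hu hv).1 h0
    obtain ⟨x, hx⟩ := exists_sqrt u
    have hux : (fun i => x i ^ 2) = u := by funext i; exact hx i
    have hx0 : x ≠ 0 := by
      rintro rfl
      apply hu; funext i; rw [← hx i]; simp
    have o1 : dot x v = 0 := by
      have : dot x v ^ 2 = 0 := by
        simp only [dot]
        simp only [valF, ← hx] at h1
        linear_combination h1 + (x 0 * v 0 * x 1 * v 1 + x 0 * v 0 * x 2 * v 2 +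
          x 1 * v 1 * x 2 * v 2) * h20
      exact pow_eq_zero_iff (by norm_num) |>.1 this
    have o2 : dot (p4 x) v = 0 := by
      simp only [dot, p4]
      simp only [valG, ← hx] at h2
      linear_combination h2
    rw [← hux] at hl
    have hcr := nondeg a x hG hx0 hl
    obtain ⟨t, ht⟩ := par_cr x (p4 x) v hcr o1 o2
    have hxx : xi b c (x 1) (x 2) = x := by
      rw [hdot] at hl
      have h3 := (mul_eq_zero.1 hl).resolve_left hr
      have h4 : dot (av b c) x = 0 := pow_eq_zero_iff (by norm_num) |>.1 h3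
      simp [dot, av] at h4
      funext i
      fin_cases i
      · simp [xi]; linear_combination h4
      · simp [xi]
      · simp [xi]
    have h3 := eval_phiC b c F ![x 1, x 2, 1, t]
    rw [hF, map_zero] at h3
    simp only [Matrix.cons_val_zero, Matrix.cons_val_one, Matrix.cons_val, hxx] at h3
    rw [h3]
    congr 1
    · funext i; simp [hx]
    · funext i; simp [ht]

end

end GonC

section GonK

variable {k : Type} [Field k]

theorem IsBihom.cmul (c : k) {F : R k} {a b : ℕ} (hF : IsBihom F a b) : IsBihom (C c * F) a b := by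
  intro m hm
  apply hF m
  rw [mem_support_iff, coeff_C_mul] at hm
  rw [mem_support_iff]
  exact right_ne_zero_of_mul hm

theorem IsBihom.neg {F : R k} {a b : ℕ} (hF : IsBihom F a b) : IsBihom (-F) a b := by
  have := hF.cmul (-1)
  rwa [map_neg, C_1, neg_one_mul] at this

theorem IsBihom.sub {F G : R k} {a b : ℕ} (hF : IsBihom F a b) (hG : IsBihom G a b) :
    IsBihom (F - G) a b := by
  rw [sub_eq_add_neg]; exact hF.add hG.neg

theorem exists_rbc [IsAlgClosed k] (a : Fin 3 → k) (hG : moore a ≠ 0) :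
    ∃ r b c : k, r ≠ 0 ∧ ∀ i, a i = r * av (b ^ 2) (c ^ 2) i := by
  have ha : a 0 ≠ 0 := by
    intro h
    apply hG
    simp [moore, dot, cr, p4, h]
  obtain ⟨b, hb⟩ := IsAlgClosed.exists_pow_nat_eq (-(a 1) / a 0) (n := 2) (by norm_num)
  obtain ⟨c, hc⟩ := IsAlgClosed.exists_pow_nat_eq (-(a 2) / a 0) (n := 2) (by norm_num)
  refine ⟨-(a 0), b, c, neg_ne_zero.2 ha, ?_⟩
  intro i
  fin_cases i
  · simp [av]
  · simp [av, hb]; field_simp
  · simp [av, hc]; field_simp

section
variable [IsAlgClosed k] [CharP k 2]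

/-- The curve as a variety. -/
noncomputable def curve (a : Fin 3 → k) (hG : moore a ≠ 0) : Variety k where
  carrier := crv a
  closed := by
    intro u v hu hv h
    rw [mem_crv, mem_surf]
    refine ⟨⟨?_, ?_⟩, ?_⟩
    · have := h 1 2 (polF k) isBihom_polF (fun u v hu hv h => polF_mem u v hu hv h.1)
      rwa [value_polF] at this
    · have := h 2 1 (polG k) isBihom_polG (fun u v hu hv h => polG_mem u v hu hv h.1)
      rwa [value_polG] at this
    · have := h 1 0 (linA a) (isBihom_linA a)
        (fun u v hu hv h => by rw [value_linA]; exact ((mem_crv a u v hu hv).1 h).2)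
      rwa [value_linA] at this
  prime := by
    obtain ⟨r, b, c, hr, ha⟩ := exists_rbc a hG
    have : vanishing (crv a) = RingHom.ker (phiC b c) := by
      ext F
      rw [RingHom.mem_ker]
      exact phiC_eq_zero_iff a r b c hr ha hG F
    rw [this]
    exact RingHom.ker_isPrime _

end

/-- forms whose ratios recover the coordinates of the square root -/
noncomputable def xt (b c : k) (i : Fin 3) : R k :=
  cr (av (C b) (C c)) (fun j => X (Sum.inr j)) i

theorem isBihom_xt (b c : k) (i : Fin 3) : IsBihom (xt b c i) 0 1 := by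
  fin_cases i
  · simp only [xt, cr, av, Fin.zero_eta, Matrix.cons_val_zero, Matrix.cons_val_one,
      Matrix.cons_val]
    exact ((isBihom_y 2).cmul b).sub ((isBihom_y 1).cmul c)
  · simp only [xt, cr, av, Fin.mk_one, Matrix.cons_val_zero, Matrix.cons_val_one,
      Matrix.cons_val, neg_one_mul]
    exact ((isBihom_y 0).cmul c).sub (isBihom_y 2).neg
  · simp only [xt, cr, av, Fin.reduceFinMk, Matrix.cons_val_zero, Matrix.cons_val_one,
      Matrix.cons_val, neg_one_mul]
    exact (isBihom_y 1).neg.sub ((isBihom_y 0).cmul b)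

/-- common factor -/
noncomputable def hpol (b c : k) : MvPolynomial (Fin 4) k := dot (av (C b) (C c)) (p4 (xiP b c))

theorem phiC_xt (b c : k) (i : Fin 3) : phiC b c (xt b c i) = X 3 * hpol b c * xiP b c i := by
  have h1 := map_cr (phiC b c : R k →+* MvPolynomial (Fin 4) k) (av (C b) (C c))
    (fun j => X (Sum.inr j)) i
  have h2 : (fun j => (phiC b c : R k →+* MvPolynomial (Fin 4) k) (av (C b) (C c) j)) =
      av (C b) (C c) := by
    funext j
    fin_cases j <;> simp [av, MvPolynomial.algHom_C, algebraMap_eq]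
  have h3 : (fun j : Fin 3 => (phiC b c : R k →+* MvPolynomial (Fin 4) k) (X (Sum.inr j))) =
      fun j => X 3 * cr (xiP b c) (p4 (xiP b c)) j := by
    funext j
    simp [phiC]
  rw [h2, h3] at h1
  have h4 : cr (av (C b) (C c)) (fun j => X 3 * cr (xiP b c) (p4 (xiP b c)) j) i =
      X 3 * cr (av (C b) (C c)) (cr (xiP b c) (p4 (xiP b c))) i := by
    fin_cases i <;> simp only [cr, Fin.zero_eta, Fin.mk_one, Fin.reduceFinMk,
      Matrix.cons_val_zero, Matrix.cons_val_one, Matrix.cons_val] <;> ring
  rw [h4, cr_cr _ _ _ (show dot (av (C b) (C c)) (xiP b c) = 0 from dot_av_xi _ _ _ _)] at h1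
  rw [hpol, mul_assoc]
  exact h1

theorem hpol_ne_zero [CharP k 2] (a : Fin 3 → k) (r b c : k)
    (ha : ∀ i, a i = r * av (b ^ 2) (c ^ 2) i) (hG : moore a ≠ 0) : hpol b c ≠ 0 := by
  intro h0
  have h20 := two_zero k
  apply hG
  have key : ∀ s t : k, dot (av b c) (p4 (xi b c s t)) = 0 := by
    intro s t
    have h1 := congrArg (MvPolynomial.eval ![s, t, 0, 0]) h0
    simp only [hpol, dot, map_add, map_mul, map_zero, p4, map_pow, eval_xiP] at h1
    simp only [Matrix.cons_val_zero, Matrix.cons_val_one] at h1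
    simp only [dot, p4]
    simpa [av] using h1
  have hb : b ^ 4 = b := by
    have := key 1 0
    simp [dot, av, p4, xi] at this
    linear_combination -this
  have hc : c ^ 4 = c := by
    have := key 0 1
    simp [dot, av, p4, xi] at this
    linear_combination -this
  have e : ∀ i, p4 (p4 a) i = r ^ 12 * p4 a i := by
    intro i
    simp only [p4, ha]
    fin_cases i
    · simp [av]; ring
    · simp only [av, Fin.mk_one, Matrix.cons_val_one, Matrix.cons_val_zero]
      calc ((r * b ^ 2) ^ 4) ^ 4 = r ^ 16 * ((b ^ 4) ^ 4) ^ 2 := by ring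
        _ = r ^ 16 * (b ^ 4) ^ 2 := by rw [hb, hb]
        _ = r ^ 12 * (r * b ^ 2) ^ 4 := by ring
    · simp only [av, Fin.reduceFinMk, Matrix.cons_val]
      calc ((r * c ^ 2) ^ 4) ^ 4 = r ^ 16 * ((c ^ 4) ^ 4) ^ 2 := by ring
        _ = r ^ 16 * (c ^ 4) ^ 2 := by rw [hc, hc]
        _ = r ^ 12 * (r * c ^ 2) ^ 4 := by ring
  rw [moore]
  have hcr : cr (p4 a) (p4 (p4 a)) = 0 := by
    funext i
    fin_cases i <;> simp only [cr, e, Fin.zero_eta, Fin.mk_one, Fin.reduceFinMk,
      Matrix.cons_val_zero, Matrix.cons_val_one, Matrix.cons_val, Pi.zero_apply] <;> ring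
  rw [hcr]
  simp [dot]

theorem crxi_ne_zero [IsAlgClosed k] (b c : k) : cr (xiP b c) (p4 (xiP b c)) 0 ≠ 0 := by
  intro h0
  obtain ⟨d, hd⟩ := exists_ne_pow4 (k := k)
  have h1 := congrArg (MvPolynomial.eval ![1, d, 0, 0]) h0
  rw [eval_crxi] at h1
  simp [cr, p4, xi] at h1
  apply hd
  linear_combination h1

section
variable [IsAlgClosed k] [CharP k 2]

set_option maxHeartbeats 4000000 in
theorem curve_generator (a : Fin 3 → k) (hG : moore a ≠ 0) :
    ∃ f : (curve a hG).functionField, Transcendental k f ∧ IntermediateField.adjoin k {f} = ⊤ := by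
  obtain ⟨r, b, c, hr, ha⟩ := exists_rbc a hG
  have hker : ∀ F, (curve a hG).cl F = 0 ↔ phiC b c F = 0 := fun F =>
    (cl_eq_zero (curve a hG) F).trans (phiC_eq_zero_iff a r b c hr ha hG F)
  have hH := hpol_ne_zero a r b c ha hG
  set V := curve a hG with hV
  have hX3 : (X 3 : MvPolynomial (Fin 4) k) ≠ 0 := X_ne_zero _
  have hX1 : (X 1 : MvPolynomial (Fin 4) k) ≠ 0 := X_ne_zero _
  have hne2 : V.cl (xt b c 2) ≠ 0 := by
    rw [Ne, hker, phiC_xt]
    exact mul_ne_zero (mul_ne_zero hX3 hH) hX1
  have hne2' : xt b c 2 ∉ vanishing V.carrier := fun h => hne2 ((cl_eq_zero V _).2 h)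
  -- the generator
  let f : V.functionField := ⟨V.cl (xt b c 1) / V.cl (xt b c 2),
    ratio_mem V (isBihom_xt b c 1) (isBihom_xt b c 2) hne2'⟩
  have hf : (f : V.Frac) = V.cl (xt b c 1) / V.cl (xt b c 2) := rfl
  set B : V.Frac := algebraMap k V.Frac b with hB
  set C' : V.Frac := algebraMap k V.Frac c with hC
  have hclC : ∀ (d : k), V.cl (C d) = algebraMap k V.Frac d := by
    intro d
    rw [← clHom_apply, ← algebraMap_eq]; exact (clHom V).commutes d
  have hmul : ∀ F G, V.cl (F * G) = V.cl F * V.cl G := by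
    intro F G; rw [← clHom_apply, map_mul]; rfl
  have hsub : ∀ F G, V.cl (F - G) = V.cl F - V.cl G := by
    intro F G; rw [← clHom_apply, map_sub]; rfl
  have hpow : ∀ F (n : ℕ), V.cl (F ^ n) = V.cl F ^ n := by
    intro F n; rw [← clHom_apply, map_pow]; rfl
  -- relations
  have hΞ0 : V.cl (xt b c 0) = B * V.cl (xt b c 1) + C' * V.cl (xt b c 2) := by
    have h : V.cl (xt b c 0 - C b * xt b c 1 - C c * xt b c 2) = 0 := by
      rw [hker, map_sub, map_sub, map_mul, map_mul, phiC_xt, phiC_xt, phiC_xt,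
        MvPolynomial.algHom_C, MvPolynomial.algHom_C, algebraMap_eq]
      simp only [xiP, xi, Matrix.cons_val_zero, Matrix.cons_val_one, Matrix.cons_val]
      ring
    rw [hsub, hsub, hmul, hmul, hclC, hclC] at h
    linear_combination h
  have hx : ∀ i, V.cl (X (Sum.inl i)) * V.cl (xt b c 2) ^ 2 =
      V.cl (X (Sum.inl 2)) * V.cl (xt b c i) ^ 2 := by
    intro i
    have h : V.cl (X (Sum.inl i) * xt b c 2 ^ 2 - X (Sum.inl 2) * xt b c i ^ 2) = 0 := by
      rw [hker, map_sub, map_mul, map_mul, map_pow, map_pow, phiC_xt, phiC_xt]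
      simp only [phiC, aeval_X, Sum.elim_inl]
      ring
    rw [hsub, hmul, hmul, hpow, hpow] at h
    linear_combination h
  have hcrt : ∀ i, phiC b c (cr (xt b c) (p4 (xt b c)) i) =
      (X 3 * hpol b c) ^ 5 * cr (xiP b c) (p4 (xiP b c)) i := by
    intro i
    have h1 := map_cr (phiC b c : R k →+* MvPolynomial (Fin 4) k) (xt b c) (p4 (xt b c)) i
    have h2 : (fun j => (phiC b c : R k →+* MvPolynomial (Fin 4) k) (xt b c j)) =
        fun j => X 3 * hpol b c * xiP b c j := by
      funext j; exact phiC_xt b c j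
    have h3 : (fun j => (phiC b c : R k →+* MvPolynomial (Fin 4) k) (p4 (xt b c) j)) =
        fun j => (X 3 * hpol b c * xiP b c j) ^ 4 := by
      funext j; simp only [p4, map_pow]; congr 1; exact phiC_xt b c j
    rw [h2, h3] at h1
    refine Eq.trans h1 ?_
    fin_cases i <;> simp only [cr, p4, Fin.zero_eta, Fin.mk_one, Fin.reduceFinMk,
      Matrix.cons_val_zero, Matrix.cons_val_one, Matrix.cons_val] <;> ring
  have hclcr : ∀ i, V.cl (cr (xt b c) (p4 (xt b c)) i) =
      cr (fun j => V.cl (xt b c j)) (p4 (fun j => V.cl (xt b c j))) i := by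
    intro i
    have h1 := map_cr (clHom V : R k →+* V.Frac) (xt b c) (p4 (xt b c)) i
    have h3 : (fun j => (clHom V : R k →+* V.Frac) (p4 (xt b c) j)) =
        p4 (fun j => V.cl (xt b c j)) := by
      funext j; simp only [p4, map_pow]; rfl
    rw [h3] at h1
    exact h1
  have hy : ∀ i, V.cl (X (Sum.inr i)) * V.cl (cr (xt b c) (p4 (xt b c)) 0) =
      V.cl (X (Sum.inr 0)) * V.cl (cr (xt b c) (p4 (xt b c)) i) := by
    intro i
    have h : V.cl (X (Sum.inr i) * cr (xt b c) (p4 (xt b c)) 0 -
        X (Sum.inr 0) * cr (xt b c) (p4 (xt b c)) i) = 0 := by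
      rw [hker, map_sub, map_mul, map_mul, hcrt, hcrt]
      simp only [phiC, aeval_X, Sum.elim_inr]
      ring
    rw [hsub, hmul, hmul] at h
    linear_combination h
  have hcr0 : V.cl (cr (xt b c) (p4 (xt b c)) 0) ≠ 0 := by
    rw [Ne, hker, hcrt]
    exact mul_ne_zero (pow_ne_zero _ (mul_ne_zero hX3 hH)) (crxi_ne_zero b c)
  -- affine coordinates
  let η : Fin 3 → V.Frac := ![B * f + C', f, 1]
  have hη : ∀ i, V.cl (xt b c i) = V.cl (xt b c 2) * η i := by
    intro i
    fin_cases i
    · change V.cl (xt b c 0) = V.cl (xt b c 2) * (B * f + C')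
      rw [hΞ0, hf]; field_simp
    · change V.cl (xt b c 1) = V.cl (xt b c 2) * f
      rw [hf]; field_simp
    · change V.cl (xt b c 2) = V.cl (xt b c 2) * 1
      rw [mul_one]
  have hw : ∀ i, V.cl (cr (xt b c) (p4 (xt b c)) i) = V.cl (xt b c 2) ^ 5 * cr η (p4 η) i := by
    intro i
    rw [hclcr]
    have : (fun j => V.cl (xt b c j)) = fun j => V.cl (xt b c 2) * η j := by
      funext j; exact hη j
    rw [this]
    fin_cases i <;> simp only [cr, p4, Fin.zero_eta, Fin.mk_one, Fin.reduceFinMk,
      Matrix.cons_val_zero, Matrix.cons_val_one, Matrix.cons_val] <;> ring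
  have hw0 : cr η (p4 η) 0 ≠ 0 := by
    intro h; rw [hw, h, mul_zero] at hcr0; exact hcr0 rfl
  refine ⟨f, ?_, ?_⟩
  · -- transcendental
    intro halg
    have hint : IsIntegral k f := halg.isIntegral
    obtain ⟨d, hd⟩ := minpoly.mem_range_of_degree_eq_one k f
      (IsAlgClosed.degree_eq_one_of_irreducible k (minpoly.irreducible hint))
    have hd' : V.cl (xt b c 1) / V.cl (xt b c 2) = algebraMap k V.Frac d := by
      rw [← hf, ← hd]; rfl
    have h : V.cl (xt b c 1 - C d * xt b c 2) = 0 := by
      rw [hsub, hmul, hclC, ← hd']; field_simp; ring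
    rw [hker, map_sub, map_mul, phiC_xt, phiC_xt, MvPolynomial.algHom_C, algebraMap_eq] at h
    have h2 : X 3 * hpol b c * (xiP b c 1 - C d * xiP b c 2) = 0 := by
      linear_combination h
    have h3 := (mul_eq_zero.1 h2).resolve_left (mul_ne_zero hX3 hH)
    have h4 := congrArg (MvPolynomial.eval ![1, 0, 0, 0]) h3
    simp [xiP, xi] at h4
  · set E := IntermediateField.adjoin k {f} with hE
    have m1 : f ∈ E := IntermediateField.mem_adjoin_simple_self k f
    have n1 : (f : V.Frac) ∈ IntermediateField.lift E := (IntermediateField.mem_lift f).2 m1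
    have hηm : ∀ i, η i ∈ IntermediateField.lift E := by
      intro i
      fin_cases i
      · exact add_mem (mul_mem (IntermediateField.algebraMap_mem _ b) n1)
          (IntermediateField.algebraMap_mem _ c)
      · exact n1
      · exact one_mem _
    have hle : V.functionField ≤ IntermediateField.lift E := by
      apply functionField_le V (IntermediateField.lift E) (V.cl (X (Sum.inl 2)))
        (V.cl (X (Sum.inr 0)) / cr η (p4 η) 0) (fun i => η i ^ 2) (cr η (p4 η))
      · intro i; exact pow_mem (hηm i) 2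
      · intro i
        fin_cases i <;> simp only [cr, p4, Fin.zero_eta, Fin.mk_one, Fin.reduceFinMk,
          Matrix.cons_val_zero, Matrix.cons_val_one, Matrix.cons_val] <;>
        exact sub_mem (mul_mem (hηm _) (pow_mem (hηm _) 4))
          (mul_mem (hηm _) (pow_mem (hηm _) 4))
      · intro i
        have h := hx i
        rw [hη i] at h
        have h' : (V.cl (X (Sum.inl i)) - V.cl (X (Sum.inl 2)) * η i ^ 2) *
            V.cl (xt b c 2) ^ 2 = 0 := by linear_combination h
        have := (mul_eq_zero.1 h').resolve_right (pow_ne_zero _ hne2)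
        linear_combination this
      · intro i
        have h := hy i
        rw [hw, hw] at h
        have h' : (V.cl (X (Sum.inr i)) * cr η (p4 η) 0 -
            V.cl (X (Sum.inr 0)) * cr η (p4 η) i) * V.cl (xt b c 2) ^ 5 = 0 := by
          linear_combination h
        have h'' := (mul_eq_zero.1 h').resolve_right (pow_ne_zero _ hne2)
        field_simp
        linear_combination h''
    rw [eq_top_iff]
    intro z _
    exact (IntermediateField.mem_lift z).1 (hle z.2)

end

theorem algInd_one {K : Type} [Field K] [Algebra k K] (f : K) (hf : Transcendental k f) :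
    AlgebraicIndependent k ![f] := by
  rw [algebraicIndependent_unique_type_iff]; exact hf

theorem range_one {K : Type} (f : K) : Set.range ![f] = {f} := by
  ext z; simp

theorem deg_one (V : Variety k) (f : V.functionField)
    (h : IntermediateField.adjoin k {f} = ⊤) : V.degree ![f] = 1 := by
  rw [Variety.degree, IntermediateField.finrank_eq_one_iff_eq_top, range_one, h]

theorem gonality_eq_one (V : Variety k) (f : V.functionField) (hf : Transcendental k f)
    (h : IntermediateField.adjoin k {f} = ⊤) : V.gonality = 1 := by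
  have hmem : 1 ∈ {d | 0 < d ∧ ∃ f : Fin 1 → V.Fun, V.Dominant f ∧ V.deg f = d} :=
    ⟨one_pos, ![f], algInd_one f hf, deg_one V f h⟩
  apply le_antisymm
  · exact Nat.sInf_le hmem
  · exact (Nat.sInf_mem ⟨1, hmem⟩).1

theorem dim_eq_one (V : Variety k) (f : V.functionField) (hf : Transcendental k f)
    (h : IntermediateField.adjoin k {f} = ⊤) : V.dim = 1 := by
  have hind : AlgebraicIndependent k ![f] := algInd_one f hf
  have hb : IsTranscendenceBasis k ![f] := by
    rw [hind.isTranscendenceBasis_iff_isAlgebraic]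
    have h1 : IntermediateField.adjoin k (Set.range ![f]) = ⊤ := by rw [range_one]; exact h
    have halg : Algebra.IsAlgebraic (IntermediateField.adjoin k (Set.range ![f]))
        V.functionField := by
      rw [h1]
      constructor
      intro z
      exact isAlgebraic_algebraMap (⟨z, trivial⟩ : (⊤ : IntermediateField k V.functionField))
    open scoped IntermediateField.algebraAdjoinAdjoin in
    exact (IsFractionRing.comap_isAlgebraic_iff (A := Algebra.adjoin k (Set.range ![f]))
      (K := IntermediateField.adjoin k (Set.range ![f])) (C := V.functionField)).2 halg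
  have := hb.lift_cardinalMk_eq_trdeg
  simp only [Cardinal.lift_id] at this
  rw [Variety.dim, ← this]
  simp

end GonK

section GonFinal

variable {k : Type} [Field k]

theorem exists_ne_pow16 [IsAlgClosed k] : ∃ c : k, c ^ 16 ≠ c := by
  have : Infinite k := IsAlgClosed.instInfinite
  by_contra hcon
  push Not at hcon
  have h0 : (Polynomial.X ^ 16 - Polynomial.X : Polynomial k) = 0 := by
    apply Polynomial.funext
    intro r
    simp [hcon r]
  have h1 := congrArg (fun p => Polynomial.coeff p 16) h0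
  simp [Polynomial.coeff_X] at h1

/-- the Moore determinant as a polynomial -/
noncomputable def mooreP (k : Type) [Field k] : MvPolynomial (Fin 3) k := moore X

theorem eval_mooreP (a : Fin 3 → k) : MvPolynomial.eval a (mooreP k) = moore a := by
  simp [mooreP, moore, dot, cr, p4]

theorem mooreP_ne_zero [IsAlgClosed k] [CharP k 2] : mooreP k ≠ 0 := by
  obtain ⟨t, ht⟩ := exists_ne_pow16 (k := k)
  intro h
  have h20 := two_zero k
  have h1 := congrArg (MvPolynomial.eval ![1, t, t ^ 2]) h
  rw [eval_mooreP, map_zero] at h1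
  have h2 : (t ^ 4 - t) * (t ^ 16 - t) * (t ^ 4 - t) ^ 4 = 0 := by
    have h3 : (t ^ 4 - t) ^ 4 = t ^ 16 - t ^ 4 := by
      linear_combination (-2 * t ^ 13 + 3 * t ^ 10 - 2 * t ^ 7 + t ^ 4) * h20
    rw [h3]
    simp [moore, dot, cr, p4] at h1
    linear_combination h1
  have h4 : t ^ 4 - t ≠ 0 := by
    intro h
    apply ht
    have h' := sub_eq_zero.1 h
    calc t ^ 16 = (t ^ 4) ^ 4 := by ring
      _ = t := by rw [h', h']
  exact mul_ne_zero (mul_ne_zero h4 (sub_ne_zero.2 ht)) (pow_ne_zero _ h4) h2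

theorem mooreP_homog : (mooreP k).IsHomogeneous 21 := by
  have h : ∀ i : Fin 3, (X i : MvPolynomial (Fin 3) k).IsHomogeneous 1 := isHomogeneous_X k
  have h4 : ∀ i : Fin 3, (X i ^ 4 : MvPolynomial (Fin 3) k).IsHomogeneous 4 := fun i => (h i).pow 4
  have h16 : ∀ i : Fin 3, ((X i ^ 4) ^ 4 : MvPolynomial (Fin 3) k).IsHomogeneous 16 :=
    fun i => (h4 i).pow 4
  have hh : ∀ i j l : Fin 3, (X i * (X j ^ 4 * (X l ^ 4) ^ 4 - X l ^ 4 * (X j ^ 4) ^ 4) :
      MvPolynomial (Fin 3) k).IsHomogeneous 21 := fun i j l =>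
    (h i).mul (((h4 j).mul (h16 l)).sub ((h4 l).mul (h16 j)))
  exact ((hh 0 1 2).add (hh 1 2 0)).add (hh 2 0 1)

/-- Sanity check: the hypotheses of `result` are satisfiable. -/
example : IsAlgClosed (AlgebraicClosure (ZMod 2)) ∧ CharP (AlgebraicClosure (ZMod 2)) 2 :=
  ⟨inferInstance, inferInstance⟩

/-- **Main theorem.** `k` is any algebraically closed field of characteristic `2`. There is a smooth
projective surface `S` (a closed integral subvariety of `P² × P²`) and a dominant (rational) map
`ψ : S → P²` of minimal degree `d = 2` such that for every line `L = {a·x = 0}` in the nonempty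
Zariski open subset `G(a) ≠ 0` of the dual plane the curve `C_L = ψ⁻¹(L)` is integral and has
gonality `1 < d`. -/
theorem result (k : Type) [Field k] [IsAlgClosed k] [CharP k 2] :
    ∃ S : Variety k, S.IsSurface ∧ S.dimension = 2 ∧ S.Smooth ∧
      ∃ ψ : Fin 2 → S.Fun, S.IsFirstProjection ψ ∧ S.IsMinimal ψ ∧ S.deg ψ = 2 ∧
        ForGeneralLine (fun a : Fin 3 → k =>
          ∃ C : Variety k, C.IsPreimage S a ∧ C.dimension = 1 ∧ C.gonality = 1) := by
  have hdeg : (surface k).deg (proj k) = 2 := degree_proj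
  refine ⟨surface k, fun u v hu hv => mem_surf u v hu hv, dimension_surface, smooth_surface,
    proj k, ⟨x0_not_mem, fun i => rfl⟩, ⟨proj_independent, fun w hw => ?_⟩, hdeg, 21, mooreP k,
    mooreP_ne_zero, mooreP_homog, ?_⟩
  · rw [hdeg]; exact min_degree w hw
  intro a _ ha
  rw [eval_mooreP] at ha
  obtain ⟨f, hf, htop⟩ := curve_generator a ha
  exact ⟨curve a ha, fun u v hu hv => mem_crv a u v hu hv, dim_eq_one _ f hf htop,
    gonality_eq_one _ f hf htop⟩

end GonFinal

end Pool.Agent.Results.MP_83f7cc_ag.InsepDouble
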